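import Pool.Agent.P.MP_02a1b3_co.As.Defs

set_option autoImplicit false

open Finset

namespace Pool.Agent.P.MP_02a1b3_co.As

theorem blocks_lt {n k : ℕ} (j : Fin (n / k)) (i : Fin k) : j.val * k + i.val < n / k * k :=
  calc j.val * k + i.val < (j.val + 1) * k := by rw [Nat.add_mul, Nat.one_mul]; omega
    _ ≤ _ := Nat.mul_le_mul_right _ j.prop

/-- the position of the letter `i` of the block `j` -/
def blocks_ix {n k : ℕ} (j : Fin (n / k)) (i : Fin k) : Fin n :=
  ⟨j.val * k + i.val, (blocks_lt j i).trans_le (Nat.div_mul_le_self n k)⟩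

theorem blocks_inj {n k : ℕ} :
    Function.Injective fun q : Fin (n / k) × Fin k => blocks_ix q.1 q.2 := by
  rintro ⟨j, i⟩ ⟨j', i'⟩ h
  have h1 : j.val * k + i.val = j'.val * k + i'.val := congrArg Fin.val h
  have hk : 0 < k := Fin.pos i
  have h2 : j.val = j'.val := by
    have e : ∀ (a : ℕ) (b : Fin k), (a * k + b.val) / k = a := fun a b => by
      rw [Nat.mul_comm, Nat.mul_add_div hk, Nat.div_eq_of_lt b.2, Nat.add_zero]
    rw [← e j i, h1, e]
  rw [h2] at h1
  exact Prod.ext (Fin.ext h2) (Fin.ext (Nat.add_left_cancel h1))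

theorem blocks_sub {n k : ℕ} (π : Fin n → Fin n) :
    (List.ofFn fun j : Fin (n / k) => List.ofFn fun i : Fin k =>
      π (blocks_ix j i)).flatten.Sublist (List.ofFn π) := by
  have h := List.ofFn_mul fun t : Fin (n / k * k) => π (Fin.castLE (Nat.div_mul_le_self n k) t)
  have h2 : (List.ofFn fun t : Fin (n / k * k) => π (Fin.castLE (Nat.div_mul_le_self n k) t)) =
      (List.ofFn π).take (n / k * k) := by
    apply List.ext_getElem
    · simp [Nat.div_mul_le_self]
    · intro i h1 h2
      simp [Fin.castLE]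
  have h3 := List.take_sublist (n / k * k) (List.ofFn π)
  rw [← h2, h] at h3
  exact h3

theorem blocks : S_Blocks := by
  intro n k w hn hk
  have hc : n ^ k = (univ : Finset (Fin k → Fin n)).card := by simp
  rw [hc, ← card_product]
  refine card_le_card_of_injOn (fun π => (fun i => π ⟨min (n / k * k + i.val) (n - 1), by omega⟩,
    fun j i => π (blocks_ix j i))) (fun π hπ => ?_) (fun π _ σ _ h => ?_)
  · simp only [coe_filter, mem_univ, true_and, Set.mem_ofPred_eq] at hπ
    simp only [coe_product, coe_univ, Set.mem_prod, Set.mem_univ, true_and, coe_filter, mem_univ,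
      Set.mem_ofPred_eq]
    exact ⟨π.injective.comp blocks_inj, (blocks_sub π).trans hπ⟩
  · obtain ⟨h1, h2⟩ := Prod.mk.inj h
    ext1 t
    by_cases ht : t.val < n / k * k
    · have e : t = blocks_ix ⟨t.val / k, (Nat.div_lt_iff_lt_mul hk).2 ht⟩
          ⟨t.val % k, Nat.mod_lt _ hk⟩ := Fin.ext (Nat.div_add_mod' _ _).symm
      rw [e]
      exact congrFun (congrFun h2 _) _
    · have h3 := Nat.lt_div_mul_add (a := n) hk
      have h4 := congrFun h1 ⟨t.val - n / k * k, by omega⟩
      have e : ∀ h, (⟨min (n / k * k + (t.val - n / k * k)) (n - 1), h⟩ : Fin n) = t := fun _ =>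
        Fin.ext (by dsimp only; omega)
      simpa only [e] using h4

end Pool.Agent.P.MP_02a1b3_co.As
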