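import Pool.Agent.P.MP_02a1b3_co.As.Defs

set_option autoImplicit false

open Finset

namespace Pool.Agent.P.MP_02a1b3_co.As

theorem cher_sum {α : Type} [DecidableEq α] {lam : ℝ} (h1 : 1 ≤ lam) {G : ℕ → ℝ}
    (h0 : ∀ m, 0 ≤ G m) (hG : ∀ m, 1 + G m ≤ lam * G (m + 1)) (W : List α) :
    ∀ V : Finset α, ∑ x ∈ V with x ∈ W, lam ^ (after x W).length ≤ lam ^ W.length * G V.card := by
  induction W with
  | nil => intro V; simpa using h0 _
  | cons a v ih =>
    intro V
    have hp : 0 < lam ^ v.length := by positivity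
    have key : ∀ V : Finset α, a ∉ V → ∑ x ∈ V with x ∈ a :: v, lam ^ (after x (a :: v)).length ≤
        lam ^ v.length * G V.card := fun V ha => by
      refine le_trans (le_of_eq (sum_congr (filter_congr fun x hx => ?_) fun x hx => ?_)) (ih V)
      · have : x ≠ a := fun e => ha (e ▸ hx)
        simp [this]
      · have : a ≠ x := fun e => ha (e ▸ (mem_filter.1 hx).1)
        simp [after, this]
    rw [List.length_cons, pow_succ, mul_assoc]
    by_cases ha : a ∈ V
    · have k := key _ (notMem_erase a V)
      rw [← insert_erase ha, filter_insert, if_pos (by simp), sum_insert (by simp),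
        card_insert_of_notMem (notMem_erase a V)]
      have := mul_le_mul_of_nonneg_left (hG (V.erase a).card) hp.le
      simp only [after, if_true] at k ⊢
      linarith
    · exact (key V ha).trans (mul_le_mul_of_nonneg_left (le_mul_of_one_le_left (h0 _) h1) hp.le)

theorem cher_rec {n k : ℕ} (W : List (Fin n)) :
    (univ.filter fun B : Fin (k + 1) → Fin n => (List.ofFn B).Sublist W).card ≤
      ∑ x ∈ univ with x ∈ W,
        (univ.filter fun B : Fin k → Fin n => (List.ofFn B).Sublist (after x W)).card := by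
  refine (card_le_card (t := (univ.filter (· ∈ W)).biUnion fun x =>
    (univ.filter fun B : Fin k → Fin n => (List.ofFn B).Sublist (after x W)).image
      fun B => (Fin.cons x B : Fin (k + 1) → Fin n)) fun B hB => ?_).trans
    (card_biUnion_le.trans (sum_le_sum fun _ _ => card_image_le))
  have h := (mem_filter.1 hB).2
  rw [List.ofFn_succ] at h
  exact mem_biUnion.2 ⟨B 0, mem_filter.2 ⟨mem_univ _, h.subset List.mem_cons_self⟩,
    mem_image.2 ⟨Fin.tail B, mem_filter.2 ⟨mem_univ _, sublist_after h⟩, Fin.cons_self_tail B⟩⟩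

theorem cher (hE : S_E) : S_Cher := by
  intro n k θ W hn hθ
  have hn' : (0 : ℝ) < n := Nat.cast_pos.2 hn
  obtain ⟨lam, hl⟩ : ∃ lam, lam = Real.exp (θ / n) := ⟨_, rfl⟩
  have h1 : θ / n ≤ lam - 1 := by linarith [Real.add_one_le_exp (θ / n)]
  have h2 : 0 < θ / n := by positivity
  have h3 : 0 < lam - 1 := h2.trans_le h1
  have h4 : 1 ≤ lam := by linarith
  have h5 : 0 < lam := by linarith
  have hs := cher_sum (α := Fin n) h4 (G := fun m => (1 - lam⁻¹ ^ m) / (lam - 1))
    (fun m => div_nonneg (sub_nonneg.2 (pow_le_one₀ (by positivity) (inv_le_one_of_one_le₀ h4)))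
      h3.le) (fun m => le_of_eq (by rw [pow_succ]; field_simp; ring))
  have hE0 := hE.2.1 (-θ)
  have h6 : (1 - lam⁻¹ ^ n) / (lam - 1) ≤ n * E (-θ) := by
    have e : lam⁻¹ ^ n = Real.exp (-θ) := by
      rw [hl, ← Real.exp_neg, ← Real.exp_nat_mul]
      congr 1
      field_simp
    have e' := hE.1 (-θ)
    rw [e, div_le_iff₀ h3]
    refine le_trans (le_of_eq ?_) (mul_le_mul_of_nonneg_left h1 (by positivity))
    field_simp
    linarith
  have e : ∀ W : List (Fin n), Real.exp (θ * W.length / n) = lam ^ W.length := fun W => by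
    rw [hl, ← Real.exp_nat_mul]
    congr 1
    ring
  rw [e]
  induction k generalizing W with
  | zero => simpa using one_le_pow₀ h4
  | succ k ih =>
    refine (Nat.cast_le.2 (cher_rec W)).trans ?_
    rw [Nat.cast_sum]
    refine (sum_le_sum fun x _ => ih (after x W)).trans ?_
    rw [← sum_mul, pow_succ', ← mul_assoc]
    refine mul_le_mul_of_nonneg_right ((hs W univ).trans ?_) (by positivity)
    rw [card_univ, Fintype.card_fin]
    exact mul_le_mul_of_nonneg_left h6 (by positivity)

end Pool.Agent.P.MP_02a1b3_co.As
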