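import Pool.Agent.P.MP_02a1b3_co.As.Defs

namespace Pool.Agent.P.MP_02a1b3_co.As

open Finset

theorem cost_sub (n L : ℕ) [NeZero n] (π : Equiv.Perm (Fin n)) :
    (List.ofFn π).Sublist (per n L) ↔
      ∃ f : Fin n → ℕ, StrictMono f ∧ ∀ i, f i < L ∧ f i % n = (π i).val := by
  rw [List.sublist_iff_exists_fin_orderEmbedding_get_eq]
  constructor
  · rintro ⟨f, hf⟩
    refine ⟨fun i => (f (Fin.cast (by simp) i)).val, fun i j hij => f.strictMono
      (show Fin.cast _ i < Fin.cast _ j from hij), fun i => ⟨?_, ?_⟩⟩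
    · simpa [per] using (f (Fin.cast (by simp) i)).2
    · have := congrArg Fin.val (hf (Fin.cast (by simp) i))
      simpa [per] using this.symm
  · rintro ⟨f, hf, h⟩
    refine ⟨OrderEmbedding.ofStrictMono (fun i => ⟨f (Fin.cast (by simp) i), by
      simpa [per] using (h _).1⟩) ?_, fun i => ?_⟩
    · intro i j hij
      exact hf (show Fin.cast _ i < Fin.cast _ j from hij)
    · apply Fin.ext
      simp only [per, List.get_ofFn, Fin.val_ofNat]
      exact (h _).2.symm

/-- the values, as a function on the natural numbers -/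
def cost_a {n : ℕ} (π : Equiv.Perm (Fin n)) (i : ℕ) : ℕ := if h : i < n then (π ⟨i, h⟩).val else 0

/-- the number of descents before a position -/
def cost_D {n : ℕ} (π : Equiv.Perm (Fin n)) (i : ℕ) : ℕ :=
  ∑ j ∈ range i, if cost_a π (j + 1) < cost_a π j then 1 else 0

theorem cost_a_eq {n : ℕ} (π : Equiv.Perm (Fin n)) (i : Fin n) : cost_a π i = (π i).val :=
  dif_pos i.2

theorem cost_dsc {m : ℕ} (π : Equiv.Perm (Fin (m + 1))) : dsc π = cost_D π m := by
  rw [dsc, card_filter, Fin.sum_univ_castSucc, if_neg (by simp), add_zero, cost_D,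
    ← Fin.sum_univ_eq_sum_range (fun j => if cost_a π (j + 1) < cost_a π j then 1 else 0)]
  refine sum_congr rfl fun i _ => if_congr ?_ rfl rfl
  have h1 := cost_a_eq π i.succ
  have h2 := cost_a_eq π i.castSucc
  rw [Fin.val_succ] at h1
  rw [Fin.val_castSucc] at h2
  rw [h1, h2]
  exact ⟨fun ⟨_, h⟩ => h, fun h => ⟨i.succ.2, h⟩⟩

theorem cost_step {m : ℕ} (π : Equiv.Perm (Fin (m + 1))) (i : Fin m) :
    cost_D π i.succ = cost_D π i.castSucc + if π i.succ < π i.castSucc then 1 else 0 := by
  have h1 := cost_a_eq π i.succ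
  have h2 := cost_a_eq π i.castSucc
  rw [Fin.val_succ] at h1
  rw [Fin.val_castSucc] at h2
  rw [Fin.val_succ, cost_D, sum_range_succ, h1, h2]
  rfl

theorem costS : S_Cost := by
  intro n L _ π
  obtain ⟨m, rfl⟩ := Nat.exists_eq_succ_of_ne_zero (NeZero.ne n)
  have hc : cost π = (m + 1) * cost_D π (Fin.last m) + (π (Fin.last m)).val := by
    rw [cost, cost_dsc]; rfl
  rw [cost_sub, hc]
  constructor
  · rintro ⟨f, hf, h⟩
    have key : ∀ i : Fin (m + 1), cost_D π i ≤ f i / (m + 1) := by
      intro i
      induction i using Fin.induction with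
      | zero => simp [cost_D]
      | succ i ih =>
        have h1 : f i.castSucc < f i.succ := hf Fin.castSucc_lt_succ
        have h2 := Nat.div_le_div_right (c := m + 1) h1.le
        rw [cost_step]
        split_ifs with hd
        · refine Nat.succ_le_of_lt (ih.trans_lt (h2.lt_of_ne fun e => ?_))
          have e1 := Nat.div_add_mod (f i.castSucc) (m + 1)
          have e2 := Nat.div_add_mod (f i.succ) (m + 1)
          rw [(h _).2] at e1 e2
          rw [e] at e1
          have : (π i.succ).val < (π i.castSucc).val := hd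
          omega
        · exact ih.trans h2
    have e := Nat.div_add_mod (f (Fin.last m)) (m + 1)
    rw [(h _).2] at e
    have := Nat.mul_le_mul_left (m + 1) (key (Fin.last m))
    have := (h (Fin.last m)).1
    omega
  · intro h
    have sm : StrictMono fun i : Fin (m + 1) => (m + 1) * cost_D π i + (π i).val := by
      refine Fin.strictMono_iff_lt_succ.2 fun i => ?_
      rw [cost_step]
      have h1 := (π i.castSucc).2
      split_ifs with hd
      · rw [mul_add, mul_one]; omega
      · have h2 : π i.castSucc ≠ π i.succ := fun e => Fin.castSucc_lt_succ.ne (π.injective e)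
        have : (π i.castSucc).val < (π i.succ).val := (not_lt.1 hd).lt_of_ne h2
        rw [add_zero]; omega
    refine ⟨_, sm, fun i => ⟨(sm.monotone (Fin.le_last i)).trans_lt h, ?_⟩⟩
    rw [Nat.mul_add_mod, Nat.mod_eq_of_lt (π i).2]

end Pool.Agent.P.MP_02a1b3_co.As
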