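import Pool.Agent.P.MP_02a1b3_co.As.Defs

set_option autoImplicit false

open Finset

namespace Pool.Agent.P.MP_02a1b3_co.As

theorem cut : S_Cut := by
  intro α _ n J w hn
  induction J generalizing w with
  | zero =>
    refine ⟨{Fin.elim0}, by simp, by simp, fun x _ => ⟨Fin.elim0, by simp, fun j => j.elim0⟩⟩
  | succ J ih =>
    choose F hcard hlen hcov using ih
    refine ⟨(range (w.length / n + 1)).biUnion fun e =>
      (F (w.drop (n * e))).image fun W => Fin.cons (w.take (n * (e + 1))) W, ?_, ?_, ?_⟩
    · refine card_biUnion_le.trans ?_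
      calc ∑ e ∈ range (w.length / n + 1),
            ((F (w.drop (n * e))).image fun W =>
              (Fin.cons (w.take (n * (e + 1))) W : Fin (J + 1) → List α)).card
          ≤ ∑ e ∈ range (w.length / n + 1), ((w.length / n + 1 - 1 - e) + J).choose J := by
            refine sum_le_sum fun e _ => card_image_le.trans ((hcard _).trans (le_of_eq ?_))
            rw [List.length_drop, Nat.sub_mul_div, Nat.add_sub_cancel]
        _ = ∑ e ∈ range (w.length / n + 1), (e + J).choose J :=
            sum_range_reflect (fun e => (e + J).choose J) _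
        _ = (w.length / n + (J + 1)).choose (J + 1) := by
            rw [Nat.sum_range_add_choose, add_assoc]
    · intro W hW
      obtain ⟨e, he, hW⟩ := mem_biUnion.1 hW
      obtain ⟨W', hW', rfl⟩ := mem_image.1 hW
      have h1 := hlen _ W' hW'
      have h2 : n * e ≤ w.length := by
        have h3 : e ≤ w.length / n := Nat.lt_succ_iff.1 (mem_range.1 he)
        exact (Nat.mul_le_mul_left n h3).trans (Nat.mul_div_le _ _)
      rw [Fin.sum_univ_succ]
      simp only [Fin.cons_zero, Fin.cons_succ, List.length_take]
      rw [List.length_drop] at h1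
      have h4 := min_le_left (n * (e + 1)) w.length
      rw [mul_add, mul_one] at h4 ⊢
      rw [mul_add, mul_one]
      omega
    · intro x hx
      rw [List.ofFn_succ, List.flatten_cons, List.append_sublist_iff] at hx
      obtain ⟨r₁, r₂, rfl, h1, h2⟩ := hx
      have h3 : n * (r₁.length / n) ≤ r₁.length := Nat.mul_div_le _ _
      have h4 : r₁.length < n * (r₁.length / n + 1) := Nat.lt_mul_div_succ _ hn
      have h5 : r₂.Sublist ((r₁ ++ r₂).drop (n * (r₁.length / n))) := by
        rw [List.drop_append_of_le_length h3]
        exact List.sublist_append_right _ _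
      have h6 : r₁.Sublist ((r₁ ++ r₂).take (n * (r₁.length / n + 1))) := by
        rw [List.take_append, List.take_of_length_le h4.le]
        exact List.sublist_append_left _ _
      obtain ⟨W, hW, hW'⟩ := hcov _ (fun j => x j.succ) (h2.trans h5)
      refine ⟨Fin.cons ((r₁ ++ r₂).take (n * (r₁.length / n + 1))) W,
        mem_biUnion.2 ⟨r₁.length / n, mem_range.2 (Nat.lt_succ_of_le ?_),
          mem_image.2 ⟨W, hW, rfl⟩⟩, fun j => ?_⟩
      · exact Nat.div_le_div_right (by simp)
      · refine Fin.cases ?_ (fun j => ?_) j
        · exact h1.trans h6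
        · exact hW' j

end Pool.Agent.P.MP_02a1b3_co.As
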