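import Pool.Agent.P.MP_02a1b3_co.As.Defs

set_option autoImplicit false

open Finset

namespace Pool.Agent.P.MP_02a1b3_co.As

theorem emb_sm (m M : ℕ) :
    ((Fintype.piFinset fun _ : Fin m => range M).filter fun f => StrictMono f).card
      = M.choose m := by
  have e : M.choose m = (powersetCard m (range M)).card := by simp
  rw [e]
  refine card_nbij' (fun f => univ.image f)
    (fun S i => if h : S.card = m then S.orderEmbOfFin h i else 0) ?_ ?_ ?_ ?_
  · intro f hf
    obtain ⟨h1, h2⟩ := mem_filter.1 (mem_coe.1 hf)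
    rw [mem_coe, mem_powersetCard]
    refine ⟨fun x hx => ?_, by rw [card_image_of_injective _ h2.injective]; simp⟩
    obtain ⟨i, -, rfl⟩ := mem_image.1 hx
    exact Fintype.mem_piFinset.1 h1 i
  · intro S hS
    obtain ⟨h1, h2⟩ := mem_powersetCard.1 (mem_coe.1 hS)
    simp only [dif_pos h2]
    exact mem_coe.2 (mem_filter.2 ⟨Fintype.mem_piFinset.2 fun i => h1 (S.orderEmbOfFin_mem h2 i),
      (S.orderEmbOfFin h2).strictMono⟩)
  · intro f hf
    obtain ⟨-, h2⟩ := mem_filter.1 (mem_coe.1 hf)
    have hc : (univ.image f).card = m := by rw [card_image_of_injective _ h2.injective]; simp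
    simp only [dif_pos hc]
    exact (orderEmbOfFin_unique hc (fun x => mem_image_of_mem f (mem_univ x)) h2).symm
  · intro S hS
    obtain ⟨-, h2⟩ := mem_powersetCard.1 (mem_coe.1 hS)
    simp only [dif_pos h2]
    exact image_orderEmbOfFin_univ S h2

/-- the permutation as a sequence -/
def emb_a {n : ℕ} (π : Equiv.Perm (Fin n)) (j : ℕ) : ℕ := if h : j < n then (π ⟨j, h⟩).val else 0

/-- the number of ascents among the first `i` steps -/
def emb_A {n : ℕ} (π : Equiv.Perm (Fin n)) (i : ℕ) : ℕ :=
  Nat.count (fun j => emb_a π j < emb_a π (j + 1)) i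

theorem emb_step {n x y q r : ℕ} (A : ℕ) (hx : x < n) (hy : y < n) :
    n * q + x < n * r + y ↔ q + A < r + (A + if x < y then 1 else 0) := by
  split_ifs with h
  · constructor
    · intro h1
      by_contra h2
      have : n * (r + 1) ≤ n * q := Nat.mul_le_mul_left n (by omega)
      rw [mul_add] at this
      omega
    · intro h1
      have : n * q ≤ n * r := Nat.mul_le_mul_left n (by omega)
      omega
  · constructor
    · intro h1
      by_contra h2
      have : n * r ≤ n * q := Nat.mul_le_mul_left n (by omega)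
      omega
    · intro h1
      have : n * (q + 1) ≤ n * r := Nat.mul_le_mul_left n (by omega)
      rw [mul_add] at this
      omega

theorem emb_key {m : ℕ} (π : Equiv.Perm (Fin (m + 1))) (q : Fin (m + 1) → ℕ) :
    StrictMono (fun i => (m + 1) * q i + (π i).val) ↔
      StrictMono (fun i => q i + emb_A π i.val) := by
  rw [Fin.strictMono_iff_lt_succ, Fin.strictMono_iff_lt_succ]
  refine forall_congr' fun i => ?_
  have h0 : emb_a π i.val = (π i.castSucc).val := dif_pos (by omega)
  have h1 : emb_a π (i.val + 1) = (π i.succ).val := dif_pos (by omega)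
  have h2 : emb_A π i.succ.val = emb_A π i.castSucc.val +
      if (π i.castSucc).val < (π i.succ).val then 1 else 0 := by
    rw [← h0, ← h1]
    exact Nat.count_succ _ _
  rw [h2]
  exact emb_step _ (Fin.is_lt _) (Fin.is_lt _)

theorem emb_dsc {m : ℕ} (π : Equiv.Perm (Fin (m + 1))) : emb_A π m + dsc π = m := by
  have h := card_filter_add_card_filter_not (s := range m) fun j => emb_a π j < emb_a π (j + 1)
  rw [card_range] at h
  refine Eq.trans ?_ h
  unfold emb_A dsc
  rw [Nat.count_eq_card_filter_range]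
  congr 1
  refine card_bij (fun i _ => i.val) ?_ (fun _ _ _ _ e => Fin.ext e) ?_
  · intro i hi
    obtain ⟨h1, h2⟩ := (mem_filter.1 hi).2
    refine mem_filter.2 ⟨mem_range.2 (by omega), ?_⟩
    unfold emb_a
    rw [dif_pos i.is_lt, dif_pos h1]
    exact not_lt.2 h2.le
  · intro j hj
    obtain ⟨h1, h2⟩ := mem_filter.1 hj
    have h3 := mem_range.1 h1
    refine ⟨⟨j, by omega⟩, mem_filter.2 ⟨mem_univ _, by simpa using h3, ?_⟩, rfl⟩
    unfold emb_a at h2
    rw [dif_pos (by omega : j < m + 1), dif_pos (by omega : j + 1 < m + 1)] at h2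
    refine lt_of_le_of_ne (not_lt.1 h2) fun e => ?_
    have := π.injective e
    simp at this

theorem emb_le {m : ℕ} {f : Fin m → ℕ} (hf : StrictMono f) (i : Fin m) : i.val ≤ f i := by
  obtain ⟨i, hi⟩ := i
  induction i with
  | zero => exact Nat.zero_le _
  | succ i ih =>
    have h1 := ih (by omega)
    have h2 : f ⟨i, by omega⟩ < f ⟨i + 1, hi⟩ := hf (by simp)
    simp only at h1 ⊢
    omega

theorem emb : S_Emb := by
  intro n L _ π
  obtain ⟨m, rfl⟩ : ∃ d, n = d + 1 := ⟨n - 1, by have := NeZero.ne n; omega⟩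
  have hc : cost π = (m + 1) * dsc π + (π (Fin.last m)).val := rfl
  have hd := emb_dsc π
  have hA : ∀ i, emb_A π i ≤ i := fun i => Nat.count_le _
  have fwd : ∀ p ∈ (Sel (m + 1) L).filter fun p => StrictMono (p ∘ π),
      (∀ a, (m + 1) * (p a / (m + 1)) + a.val = p a) ∧ p (π (Fin.last m)) < L ∧
      StrictMono fun i => p (π i) / (m + 1) + emb_A π i.val := by
    intro p hp
    obtain ⟨h1, h2⟩ := mem_filter.1 hp
    rw [mem_Sel] at h1
    have h3 : ∀ a, (m + 1) * (p a / (m + 1)) + a.val = p a := fun a => by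
      rw [← (h1 a).2]
      exact Nat.div_add_mod _ _
    refine ⟨h3, (h1 _).1, (emb_key π fun i => p (π i) / (m + 1)).1 ?_⟩
    simp only [h3]
    exact h2
  split_ifs with hL
  · rw [← emb_sm]
    set s := (L - 1 - cost π) / (m + 1) with hs
    have hs1 : ∀ e, (m + 1) * e + cost π < L ↔ e ≤ s := fun e => by
      rw [hs, Nat.le_div_iff_mul_le (Nat.succ_pos m), mul_comm e]
      show _ ↔ (m + 1) * e ≤ _
      omega
    refine card_nbij' (fun p i => p (π i) / (m + 1) + emb_A π i.val)
      (fun f a => (m + 1) * (f (π.symm a) - emb_A π (π.symm a).val) + a.val) ?_ ?_ ?_ ?_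
    · intro p hp
      obtain ⟨h1, h2, h3⟩ := fwd p hp
      refine mem_coe.2 (mem_filter.2 ⟨Fintype.mem_piFinset.2 fun i => mem_range.2 ?_, h3⟩)
      refine (h3.monotone (Fin.le_last i)).trans_lt ?_
      have h4 := emb_le h3 (Fin.last m)
      have h5 := h1 (π (Fin.last m))
      simp only [Fin.val_last] at h4 ⊢
      obtain ⟨e, he⟩ : ∃ e, p (π (Fin.last m)) / (m + 1) = e + dsc π :=
        ⟨p (π (Fin.last m)) / (m + 1) - dsc π, by omega⟩
      have : e ≤ s := (hs1 e).1 (by rw [he, mul_add] at h5; omega)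
      omega
    · intro f hf
      obtain ⟨h1, h2⟩ := mem_filter.1 (mem_coe.1 hf)
      have h3 : ∀ i : Fin (m + 1), f i - emb_A π i.val + emb_A π i.val = f i := fun i =>
        Nat.sub_add_cancel ((hA _).trans (emb_le h2 i))
      have h4 : StrictMono fun i => (m + 1) * (f i - emb_A π i.val) + (π i).val :=
        (emb_key π fun i => f i - emb_A π i.val).2 (by simp only [h3]; exact h2)
      refine mem_coe.2 (mem_filter.2 ⟨mem_Sel.2 fun a => ⟨?_, ?_⟩, ?_⟩)
      · have h5 := h4.monotone (Fin.le_last (π.symm a))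
        simp only [Equiv.apply_symm_apply, Fin.val_last] at h5
        refine h5.trans_lt ?_
        have h6 := mem_range.1 (Fintype.mem_piFinset.1 h1 (Fin.last m))
        have h7 := emb_le h2 (Fin.last m)
        simp only [Fin.val_last] at h7
        obtain ⟨e, he⟩ : ∃ e, f (Fin.last m) - emb_A π m = e + dsc π :=
          ⟨f (Fin.last m) - m, by omega⟩
        have := (hs1 e).2 (by omega)
        rw [he, mul_add]
        omega
      · rw [Nat.mul_add_mod, Nat.mod_eq_of_lt a.is_lt]
      · simpa only [Function.comp_def, Equiv.symm_apply_apply] using h4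
    · intro p hp
      obtain ⟨h1, -, -⟩ := fwd p hp
      funext a
      simp only [Equiv.apply_symm_apply, Nat.add_sub_cancel, h1]
    · intro f hf
      obtain ⟨-, h2⟩ := mem_filter.1 (mem_coe.1 hf)
      funext i
      simp only [Equiv.symm_apply_apply]
      rw [Nat.mul_add_div (Nat.succ_pos m), Nat.div_eq_of_lt (π i).is_lt, add_zero]
      exact Nat.sub_add_cancel ((hA _).trans (emb_le h2 i))
  · rw [card_eq_zero, eq_empty_iff_forall_notMem]
    intro p hp
    obtain ⟨h1, h2, h3⟩ := fwd p hp
    have h4 := emb_le h3 (Fin.last m)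
    have h5 := h1 (π (Fin.last m))
    simp only [Fin.val_last] at h4
    have : (m + 1) * dsc π ≤ (m + 1) * (p (π (Fin.last m)) / (m + 1)) :=
      Nat.mul_le_mul_left _ (by omega)
    omega

end Pool.Agent.P.MP_02a1b3_co.As
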