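import Pool.Agent.P.MP_02a1b3_co.As.Defs

set_option autoImplicit false

open Finset

namespace Pool.Agent.P.MP_02a1b3_co.As

theorem ent_card {ι : Type} [Fintype ι] [DecidableEq ι] {T : ℕ} (j : ι) (t : Fin T) :
    (univ.filter fun c : ι → Fin T => c j = t).card = T ^ (Fintype.card ι - 1) := by
  have := Fintype.card_filter_piFinset_const_eq_of_mem (univ : Finset (Fin T)) j (mem_univ t)
  simpa using this

theorem ent_log {γ : Type} (S : Finset γ) (y : γ → ℝ) {a : ℝ} (ha : 0 < a) (hy : ∀ c ∈ S, 0 < y c)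
    (h : ∑ c ∈ S, y c ≤ S.card * a) : ∑ c ∈ S, Real.log (y c) ≤ S.card * Real.log a := by
  have h1 : ∑ c ∈ S, Real.log (y c) ≤ ∑ c ∈ S, (Real.log a - 1 + y c / a) :=
    sum_le_sum fun c hc => by
      have := Real.log_le_sub_one_of_pos (div_pos (hy c hc) ha)
      rw [Real.log_div (hy c hc).ne' ha.ne'] at this
      linarith
  rw [sum_add_distrib, sum_const, nsmul_eq_mul, ← sum_div] at h1
  have h2 := (div_le_iff₀ ha).2 h
  linarith

theorem ent (h1 : S_Kraft) (h2 : S_Surv) : S_Ent := by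
  intro α ι _ _ _ _ k T F A D hT hD hA hD' hc
  set X := univ.filter fun x : ι → Fin k → α =>
    (∀ j, x j ∈ F j) ∧ Function.Injective (fun q : ι × Fin k => x q.1 q.2) with hX
  rcases X.eq_empty_or_nonempty with h0 | h0
  · rw [h0]
    simpa using (Real.exp_pos _).le
  have T0 : (0 : ℝ) < T := by exact_mod_cast hT
  have X0 : (0 : ℝ) < X.card := by exact_mod_cast h0.card_pos
  let O : (ι → Fin T) → ι → (ι → Fin k → α) → Finset (Fin k → α) := fun c j x =>
    (F j).filter fun B => ∀ j', c j' < c j → ∀ i i', B i ≠ x j' i'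
  have hO : ∀ c, ∀ x ∈ X, ∀ j, x j ∈ O c j x := fun c x hx j => by
    obtain ⟨a, b⟩ := (mem_filter.1 hx).2
    refine mem_filter.2 ⟨a j, fun j' hj i i' e => ?_⟩
    have := congrArg Prod.fst (@b (j, i) (j', i') e)
    exact hj.ne (congrArg c this.symm)
  have k1 : ∀ c : ι → Fin T, (X.card : ℝ) * Real.log X.card ≤
      ∑ x ∈ X, ∑ j, Real.log (O c j x).card := fun c =>
    h1 ι (Fin k → α) (fun j => (c j).val) (O c) X (fun j x x' h => filter_congr fun B _ =>
      forall_congr' fun j' => forall_congr' fun hj => by rw [h j' hj]) (hO c)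
  have k2 : ∀ x ∈ X, ∀ j, ∑ c : ι → Fin T, Real.log (O c j x).card ≤ (T : ℝ) ^ Fintype.card ι *
      ((∑ s ∈ range T, Real.log (A j * (((s : ℝ) + 1) / T) ^ k + D)) / T) := by
    intro x hx j
    have e1 : (T : ℝ) ^ Fintype.card ι = T ^ (Fintype.card ι - 1) * T := by
      rw [← pow_succ, Nat.sub_add_cancel (Fintype.card_pos_iff.2 ⟨j⟩)]
    rw [e1, mul_assoc, mul_div_cancel₀ _ T0.ne', ← sum_range_reflect, ← Fin.sum_univ_eq_sum_range
      (fun s => Real.log (A j * ((((T - 1 - s : ℕ) : ℝ) + 1) / T) ^ k + D)), mul_sum,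
      ← sum_fiberwise univ fun c : ι → Fin T => c j]
    refine sum_le_sum fun t _ => ?_
    have e2 : ((T - 1 - t.val : ℕ) : ℝ) + 1 = T - t.val := by
      rw [eq_sub_iff_add_eq]
      have := t.2
      exact_mod_cast (by omega : T - 1 - t.val + 1 + t.val = T)
    have p1 : (0 : ℝ) ≤ (((T : ℝ) - t.val) / T) ^ k := by
      rw [← e2]
      positivity
    have p2 := mul_le_mul_of_nonneg_right (hA j) p1
    have p3 : (0 : ℝ) ≤ (F j).card * (((T : ℝ) - t.val) / T) ^ k := by positivity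
    rw [e2, ← Nat.cast_pow, ← ent_card j t]
    refine ent_log _ _ (by linarith) (fun c _ => Nat.cast_pos.2 (card_pos.2 ⟨_, hO c x hx j⟩)) ?_
    refine (h2 α ι k T x j t (F j) (mem_filter.1 hx).2.2 hc).trans ?_
    rw [ent_card, Nat.cast_pow]
    gcongr ?_ * ?_
    linarith
  have k3 := sum_le_sum fun c (_ : c ∈ univ) => k1 c
  rw [sum_comm, sum_const, card_univ, Fintype.card_fun, Fintype.card_fin, nsmul_eq_mul,
    Nat.cast_pow] at k3
  have k4 := k3.trans (sum_le_sum fun x hx =>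
    (sum_comm.le.trans (sum_le_sum fun j _ => k2 x hx j)))
  rw [sum_const, nsmul_eq_mul, ← mul_sum, mul_left_comm] at k4
  exact (Real.log_le_iff_le_exp X0).1
    (le_of_mul_le_mul_left (le_of_mul_le_mul_left k4 X0) (pow_pos T0 _))

end Pool.Agent.P.MP_02a1b3_co.As
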