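import Pool.Agent.P.MP_02a1b3_co.As.Defs

set_option autoImplicit false

open Finset

namespace Pool.Agent.P.MP_02a1b3_co.As

theorem form_coeff (n k : ℕ) :
    PowerSeries.coeff k ((1 - PowerSeries.X : PowerSeries ℤ) ^ n) = (-1) ^ k * (n.choose k : ℤ) := by
  induction n generalizing k with
  | zero =>
    cases k with
    | zero => simp
    | succ k => simp [PowerSeries.coeff_one]
  | succ n ih =>
    rw [pow_succ, mul_sub, mul_one, map_sub]
    cases k with
    | zero => simp [ih]
    | succ k =>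
      rw [PowerSeries.coeff_succ_mul_X, ih, ih, Nat.choose_succ_succ]
      push_cast
      ring

theorem form_inner (d s : ℕ) :
    ∑ k ∈ range (s + 1), (-1) ^ k * ((d + 1).choose k : ℤ) * ((s - k + d).choose d : ℤ)
      = if s = 0 then 1 else 0 := by
  have h := congrArg (PowerSeries.coeff s)
    (PowerSeries.mk_add_choose_mul_one_sub_pow_eq_one ℤ d)
  rw [mul_comm, PowerSeries.coeff_mul, PowerSeries.coeff_one,
    Finset.Nat.sum_antidiagonal_eq_sum_range_succ_mk] at h
  rw [← h]
  refine sum_congr rfl fun k _ => ?_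
  rw [form_coeff, PowerSeries.coeff_mk, add_comm (s - k) d]

theorem form (h : S_Id) : S_Form := by
  intro n L _
  obtain ⟨d, rfl⟩ : ∃ d, n = d + 1 := ⟨n - 1, by have := NeZero.ne n; omega⟩
  have e : ∀ k ∈ range (L / (d + 1) + 1),
      (-1) ^ k * ((d + 1).choose k : ℤ) * (UU (d + 1) (L - k * (d + 1)) : ℤ)
      = ∑ t ∈ range (L / (d + 1) + 1 - k), (-1) ^ k * ((d + 1).choose k : ℤ) *
        (((t + d).choose d : ℤ) * (N (per (d + 1) (L - (k + t) * (d + 1))) : ℤ)) := by
    intro k hk
    have hk' : k ≤ L / (d + 1) := Nat.lt_succ_iff.1 (mem_range.1 hk)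
    have h1 : (L - k * (d + 1)) / (d + 1) + 1 = L / (d + 1) + 1 - k := by
      rw [mul_comm, Nat.sub_mul_div_of_le]
      · omega
      · rw [mul_comm]
        exact (Nat.le_div_iff_mul_le (Nat.succ_pos d)).1 hk'
    rw [h (d + 1) (L - k * (d + 1)), h1, ← mul_sum]
    push_cast
    congr 1
    refine sum_congr rfl fun t _ => ?_
    rw [Nat.sub_sub, ← add_mul]
    simp
  rw [sum_congr rfl e, ← sum_range_diag_flip (L / (d + 1) + 1) fun k t =>
    (-1) ^ k * ((d + 1).choose k : ℤ) *
        (((t + d).choose d : ℤ) * (N (per (d + 1) (L - (k + t) * (d + 1))) : ℤ))]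
  have e2 : ∀ s ∈ range (L / (d + 1) + 1), ∑ k ∈ range (s + 1),
      (-1) ^ k * ((d + 1).choose k : ℤ) * (((s - k + d).choose d : ℤ) *
        (N (per (d + 1) (L - (k + (s - k)) * (d + 1))) : ℤ))
      = if s = 0 then (N (per (d + 1) L) : ℤ) else 0 := by
    intro s _
    have : ∀ k ∈ range (s + 1), (-1) ^ k * ((d + 1).choose k : ℤ) * (((s - k + d).choose d : ℤ) *
        (N (per (d + 1) (L - (k + (s - k)) * (d + 1))) : ℤ))
        = (-1) ^ k * ((d + 1).choose k : ℤ) * ((s - k + d).choose d : ℤ) *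
          (N (per (d + 1) (L - s * (d + 1))) : ℤ) := by
      intro k hk
      have hk' : k ≤ s := Nat.lt_succ_iff.1 (mem_range.1 hk)
      rw [Nat.add_sub_cancel' hk']
      ring
    rw [sum_congr rfl this, ← sum_mul, form_inner]
    split_ifs with hs
    · subst hs
      simp
    · simp
  rw [sum_congr rfl e2]
  simp

end Pool.Agent.P.MP_02a1b3_co.As
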