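import Pool.Agent.P.MP_02a1b3_co.As.Defs

set_option autoImplicit false

open Finset

namespace Pool.Agent.P.MP_02a1b3_co.As

theorem gap (hE : S_E) : S_Gap := by
  obtain ⟨-, hpos, h0, hmono, -, -, -, h8, h9⟩ := hE
  intro η hη
  obtain ⟨t1, ht1, h1⟩ := h9 η hη
  obtain ⟨g1, hg1⟩ : ∃ g1, (1 / 2 + η) * t1 - Real.log (E t1) = 3 * g1 :=
    ⟨((1 / 2 + η) * t1 - Real.log (E t1)) / 3, by ring⟩
  have hg : 0 < g1 := by linarith
  obtain ⟨C, hC, hC'⟩ : ∃ C : ℝ, 0 < C ∧ -Real.log (η / 2) ≤ C :=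
    ⟨|Real.log (η / 2)| + 1, by positivity, by linarith [neg_abs_le (Real.log (η / 2))]⟩
  refine ⟨max t1 (2 * C / η), C, min g1 (η * g1 / 2), lt_max_of_lt_left ht1, hC,
    lt_min hg (by positivity), fun y1 y2 h12 h2 h3 => ?_⟩
  have hb : ∀ t, 0 ≤ t → y1 * t - Real.log (E t) ≤ C - η * t / 2 := fun t ht => by
    have h4 := Real.log_le_log (by positivity) (h8 (η / 2) t (by linarith) (by linarith) ht)
    rw [Real.log_mul (by positivity) (Real.exp_ne_zero _), Real.log_exp] at h4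
    nlinarith
  let A : Set ℝ := (fun t => y1 * t - Real.log (E t)) '' Set.Ici 0
  have hA : ∀ x ∈ A, x ≤ C := by
    rintro _ ⟨t, ht, rfl⟩
    have := hb t ht
    have := mul_nonneg hη.le ht
    linarith
  have hne : A.Nonempty := ⟨_, 0, Set.self_mem_Ici, rfl⟩
  have hle : ∀ t, 0 ≤ t → y1 * t - Real.log (E t) ≤ sSup A := fun t ht =>
    le_csSup ⟨C, hA⟩ ⟨t, ht, rfl⟩
  have hc0 : 0 ≤ sSup A := by simpa [h0] using hle 0 le_rfl
  have m1 := min_le_left g1 (η * g1 / 2)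
  have m2 := min_le_right g1 (η * g1 / 2)
  by_cases hc : sSup A ≤ 2 * g1
  · refine ⟨sSup A, t1, hc0, csSup_le hne hA, ht1, le_max_left _ _, hle, ?_⟩
    nlinarith
  · have m0 : 0 < min g1 (η * g1 / 2) := lt_min hg (by positivity)
    obtain ⟨_, ⟨θ, hθ, rfl⟩, h5⟩ := exists_lt_of_lt_csSup hne (sub_lt_self (sSup A) m0)
    have hθ0 : 0 ≤ θ := hθ
    have h6 : 0 ≤ Real.log (E θ) := Real.log_nonneg (h0 ▸ hmono hθ0)
    have h7 : g1 < θ := by nlinarith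
    have h8 := hb θ hθ0
    refine ⟨sSup A, θ, hc0, csSup_le hne hA, hg.trans h7, le_max_of_le_right ?_, hle, ?_⟩
    · rw [le_div_iff₀ hη]
      nlinarith
    · nlinarith

end Pool.Agent.P.MP_02a1b3_co.As
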