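import Pool.Agent.P.MP_02a1b3_co.As.Defs

set_option autoImplicit false

open Finset

namespace Pool.Agent.P.MP_02a1b3_co.As

theorem id_sort {n L : ℕ} {p : Fin n → ℕ} (hp : p ∈ Sel n L) (π : Equiv.Perm (Fin n)) :
    Tuple.sort p = π ↔ StrictMono (p ∘ π) := by
  have hi : Function.Injective p := fun a b h => Fin.ext (by
    rw [← (mem_Sel.1 hp a).2, ← (mem_Sel.1 hp b).2, h])
  constructor
  · rintro rfl
    exact (Tuple.monotone_sort p).strictMono_of_injective (hi.comp (Tuple.sort p).injective)
  · intro h
    exact Equiv.ext fun i =>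
      hi (congrFun (Tuple.unique_monotone (Tuple.monotone_sort p) h.monotone) i)

theorem id_hock {n L c : ℕ} (hn : 0 < n) :
    (if c < L then ((L - 1 - c) / n + n).choose n else 0) =
      ∑ t ∈ range (L / n + 1), (t + n - 1).choose (n - 1) * if c < L - t * n then 1 else 0 := by
  simp only [mul_ite, mul_one, mul_zero]
  rw [← sum_filter]
  split_ifs with h
  · obtain ⟨m, rfl⟩ : ∃ m, n = m + 1 := ⟨n - 1, by omega⟩
    have e : ((range (L / (m + 1) + 1)).filter fun t => c < L - t * (m + 1)) =
        range ((L - 1 - c) / (m + 1) + 1) := by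
      ext t
      simp only [mem_filter, mem_range, Nat.lt_succ_iff, Nat.le_div_iff_mul_le hn]
      omega
    rw [e, ← add_assoc, ← Nat.sum_range_add_choose]
    rfl
  · rw [filter_eq_empty_iff.2 fun t _ => by omega, sum_empty]

theorem idS (h1 : S_Cost) (h2 : S_Emb) : S_Id := by
  intro n L _
  have hn : 0 < n := Nat.pos_of_ne_zero (NeZero.ne n)
  have e : ∀ L', N (per n L') = ∑ π : Equiv.Perm (Fin n), if cost π < L' then 1 else 0 :=
    fun L' => by simp only [N, h1 n L', card_filter]
  rw [← card_Sel hn, card_eq_sum_card_fiberwise (f := Tuple.sort) (t := univ) (by simp)]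
  simp only [e, mul_sum]
  rw [sum_comm]
  refine sum_congr rfl fun π _ => ?_
  rw [← id_hock hn, ← h2 n L π]
  exact congrArg card (filter_congr fun p hp => id_sort hp π)

end Pool.Agent.P.MP_02a1b3_co.As
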