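import Pool.Agent.P.MP_02a1b3_co.As.Defs

set_option autoImplicit false

open Finset

namespace Pool.Agent.P.MP_02a1b3_co.As

lemma ind_nx_one {α : Type} [DecidableEq α] (U : Finset α) (p : α → ℝ)
    (h : ∑ x ∈ U, p x = 1) (v : List α) : ∀ x, nx U p v x = 1 := by
  induction v with
  | nil => intro x; simp [nx]
  | cons a v ih =>
    intro x
    by_cases e : x = a
    · subst e
      simp [nx, ih, h]
    · simp [nx, e, ih]

lemma ind_FF_one {α : Type} [DecidableEq α] (U : Finset α) (p : α → ℝ)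
    (h : ∑ x ∈ U, p x = 1) (v : List α) : FF U p v = 1 := by
  simp [FF, ind_nx_one U p h v, h]

lemma ind_sum_count {α : Type} [DecidableEq α] (U : Finset α) (l : List α)
    (h : ∀ x ∈ l, x ∈ U) : ∑ x ∈ U, (l.count x : ℝ) = l.length := by
  induction l with
  | nil => simp
  | cons a l ih =>
    have ha : a ∈ U := h a (by simp)
    have := ih (fun x hx => h x (by simp [hx]))
    simp only [List.count_cons, List.length_cons]
    push_cast
    rw [sum_add_distrib, this]
    congr 1
    rw [sum_eq_single a]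
    · simp
    · intro b _ hb
      simp [Ne.symm hb]
    · intro h'
      exact absurd ha h'

lemma ind_sq (a Δ a' b : ℝ) (h : a' ≤ a + Δ) (hb : |Δ| ≤ b) :
    (max 0 a') ^ 2 ≤ (max 0 a) ^ 2 + 2 * max 0 a * Δ + b ^ 2 := by
  have h1 : Δ ^ 2 ≤ b ^ 2 := by
    rw [← sq_abs Δ]
    exact pow_le_pow_left₀ (abs_nonneg _) hb 2
  have h2 : max 0 a' ≤ |max 0 a + Δ| := by
    apply max_le (abs_nonneg _)
    refine h.trans (le_trans ?_ (le_abs_self _))
    linarith [le_max_right 0 a]
  have h3 : (max 0 a') ^ 2 ≤ (max 0 a + Δ) ^ 2 := by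
    rw [← sq_abs (max 0 a + Δ)]
    exact pow_le_pow_left₀ (le_max_left _ _) h2 2
  nlinarith

/-- lower bound for the window function -/
lemma ind_F (hE : S_E) (hC : S_Clock) {α : Type} [DecidableEq α] (U : Finset α) (q : α → ℝ)
    (θ δ : ℝ) (K : ℕ) (v : List α) (hU : U.Nonempty) (hθ : 0 ≤ θ) (hK : θ < (K + 1) * (δ / 2))
    (hq : U.card * (δ / 2 - Real.log (E θ)) ≤ ∑ x ∈ U, q x) (hv : v.length ≤ K * U.card) :
    ∃ p : α → ℝ, (∀ x ∈ U, 0 < p x) ∧ (∀ x ∈ U, U.card * p x ≤ Real.exp (q x)) ∧
      ∑ x ∈ U, p x ≤ 1 ∧ Real.exp (-(θ * K)) ≤ FF U p v := by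
  obtain ⟨-, e2, -, e4, e5, -⟩ := hE
  have hu : (0 : ℝ) < U.card := by exact_mod_cast hU.card_pos
  have h1 : Real.exp (-(θ * K)) ≤ 1 := by
    rw [Real.exp_le_one_iff]
    have : 0 ≤ θ * K := by positivity
    linarith
  set Y := ∑ x ∈ U, Real.exp (q x) with hY
  by_cases hc : Y ≤ U.card
  · have hs : ∑ x ∈ U, Real.exp (q x) / U.card ≤ 1 := by
      rw [← sum_div, div_le_one hu]
      exact hc
    refine ⟨fun x => Real.exp (q x) / U.card, fun x _ => by positivity,
      fun x _ => by rw [mul_div_cancel₀ _ hu.ne'], hs, ?_⟩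
    obtain ⟨f1, f2⟩ := hC α U (fun x => Real.exp (q x) / U.card)
      (δ / 2 - Real.log (E θ) - Real.log U.card) K v hU (fun x _ => by positivity) (by
        have : ∀ x ∈ U, Real.log (Real.exp (q x) / U.card) = q x - Real.log U.card := by
          intro x _
          rw [Real.log_div (Real.exp_pos _).ne' hu.ne', Real.log_exp]
        rw [sum_congr rfl this, sum_sub_distrib, sum_const, nsmul_eq_mul]
        linarith) hv
    by_contra hn
    push Not at hn
    have f3 := f2 (hn.trans_le h1)
    set F := FF U (fun x => Real.exp (q x) / U.card) v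
    have f4 : Real.log F < -(θ * K) := by
      rw [Real.log_lt_iff_lt_exp f1]
      exact hn
    have hK1 : (0 : ℝ) < K + 1 := by positivity
    have f5 : θ * K / (K + 1) ≤ -Real.log F / (K + 1) := by
      apply div_le_div_of_nonneg_right _ hK1.le
      linarith
    have f6 := e4 f5
    have f7 := e5 θ (θ * K / (K + 1)) (by
      rw [div_le_iff₀ hK1]
      nlinarith)
    have f8 : θ - θ * K / (K + 1) = θ / (K + 1) := by
      field_simp
      ring
    rw [f8] at f7
    have f9 : θ / (K + 1) < δ / 2 := by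
      rw [div_lt_iff₀ hK1]
      linarith
    have f10 : (U.card : ℝ) * Real.exp (δ / 2 - Real.log (E θ) - Real.log U.card)
        = Real.exp (δ / 2) / E θ := by
      rw [Real.exp_sub, Real.exp_sub, Real.exp_log (e2 θ), Real.exp_log hu]
      field_simp
    rw [f10, div_mul_eq_mul_div, div_le_one (e2 θ)] at f3
    have f11 : Real.exp (θ / (K + 1)) < Real.exp (δ / 2) := Real.exp_lt_exp.2 f9
    have f12 := e2 (θ * K / (K + 1))
    have f13 := Real.exp_pos (δ / 2)
    nlinarith
  · push Not at hc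
    have hY0 : 0 < Y := hu.trans hc
    have hs : ∑ x ∈ U, Real.exp (q x) / Y = 1 := by
      rw [← sum_div, div_self hY0.ne']
    refine ⟨fun x => Real.exp (q x) / Y, fun x _ => by positivity, fun x _ => ?_, hs.le, ?_⟩
    · rw [← mul_div_assoc, div_le_iff₀ hY0]
      have := Real.exp_pos (q x)
      nlinarith
    · rw [ind_FF_one U _ hs]
      exact h1

/-- drift of the mean number of remaining occurrences -/
lemma ind_drift {α : Type} [DecidableEq α] (U D : Finset α) (r : α → ℝ) (R ρ u0 : ℝ) (k : ℕ)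
    (hD : D ⊆ U) (hk : D.card ≤ k) (hu0 : 0 < u0) (h2 : 2 * k ≤ u0) (hu : u0 ≤ U.card)
    (hr : ∀ x ∈ U, 0 ≤ r x ∧ r x ≤ R) (hρ : R ≤ ρ * u0) :
    (∑ x ∈ U \ D, r x) / (U \ D).card ≤ (∑ x ∈ U, r x) / U.card
      + (∑ x ∈ D, ((∑ y ∈ U, r y) / U.card - r x)) / U.card + 2 * (k : ℝ) ^ 2 * ρ / u0 ∧
    ∀ x ∈ U, |((∑ y ∈ U, r y) / U.card - r x) / U.card| ≤ ρ := by
  set u : ℝ := (U.card : ℝ) with hud
  set Ψ := (∑ y ∈ U, r y) / u with hΨ
  have hu1 : 0 < u := hu0.trans_le hu
  have hne : U.Nonempty := by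
    rw [← card_pos]
    rw [hud] at hu1
    exact_mod_cast hu1
  have hR : 0 ≤ R := by
    obtain ⟨x, hx⟩ := hne
    exact (hr x hx).1.trans (hr x hx).2
  have hρ0 : 0 ≤ ρ := by
    by_contra h
    push Not at h
    nlinarith
  have p1 : 0 ≤ Ψ := div_nonneg (sum_nonneg fun x hx => (hr x hx).1) hu1.le
  have p2 : Ψ ≤ R := by
    rw [hΨ, div_le_iff₀ hu1]
    refine (sum_le_sum fun x hx => (hr x hx).2).trans ?_
    rw [sum_const, nsmul_eq_mul, mul_comm]
  have p3 : ∀ x ∈ U, |Ψ - r x| ≤ R := by
    intro x hx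
    rw [abs_le]
    constructor <;> linarith [(hr x hx).1, (hr x hx).2]
  refine ⟨?_, fun x hx => ?_⟩
  · set d : ℝ := (D.card : ℝ) with hd
    have d0 : 0 ≤ d := Nat.cast_nonneg _
    have dk : d ≤ k := by rw [hd]; exact_mod_cast hk
    have c1 : ((U \ D).card : ℝ) = u - d := by
      rw [card_sdiff_of_subset hD, Nat.cast_sub (card_le_card hD)]
    have c2 : u / 2 ≤ u - d := by linarith
    have c3 : 0 < u - d := by linarith
    set W := ∑ x ∈ D, (Ψ - r x) with hW
    have w1 : ∑ x ∈ U \ D, r x = Ψ * (u - d) + W := by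
      rw [sum_sdiff_eq_sub hD, hW, sum_sub_distrib, sum_const, nsmul_eq_mul, hΨ]
      field_simp
      ring
    have w2 : W ≤ k * R := by
      refine (sum_le_sum fun x hx => (le_abs_self _).trans (p3 x (hD hx))).trans ?_
      rw [sum_const, nsmul_eq_mul]
      exact mul_le_mul_of_nonneg_right dk hR
    have w3 : W / (u - d) = W / u + W * d / (u * (u - d)) := by
      field_simp
      ring
    have w4 : W * d / (u * (u - d)) ≤ 2 * (k : ℝ) ^ 2 * ρ / u0 := by
      rw [div_le_div_iff₀ (by positivity) hu0]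
      have a1 : W * d ≤ k * R * k := by
        calc W * d ≤ k * R * d := mul_le_mul_of_nonneg_right w2 d0
          _ ≤ k * R * k := mul_le_mul_of_nonneg_left dk (by positivity)
      have a2 : u0 * (u0 / 2) ≤ u * (u - d) :=
        mul_le_mul hu (by linarith) (by positivity) hu1.le
      calc W * d * u0 ≤ k * R * k * u0 := mul_le_mul_of_nonneg_right a1 hu0.le
        _ ≤ k * (ρ * u0) * k * u0 := by gcongr
        _ = 2 * (k : ℝ) ^ 2 * ρ * (u0 * (u0 / 2)) := by ring
        _ ≤ _ := mul_le_mul_of_nonneg_left a2 (by positivity)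
    rw [c1, w1, add_div, mul_div_cancel_right₀ _ c3.ne', w3]
    linarith
  · rw [abs_div, abs_of_pos hu1, div_le_iff₀ hu1]
    refine (p3 x hx).trans (hρ.trans ?_)
    exact mul_le_mul_of_nonneg_left hu hρ0

theorem ind (hE : S_E) (hC : S_Clock) (hW : S_Win) : S_Ind := by
  intro α _ μ η c C δ β S γ R Θ ρ Z b τ u0 K k hrec h0 h1 hf hη hc hcC hδ hβ hS hγ hR hadm hΘ hk
    hk2 hρ hZ hK hb hτ1 hτ2
  have hη0 : 0 < η := (Real.exp_pos _).trans_le hη
  have main : ∀ m : ℕ, ∀ (U : Finset α) (v : List α), U.card = m → u0 < U.card + k →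
      (∀ x ∈ U, (v.count x : ℝ) ≤ R) →
      Real.exp (-((c + δ) * U.card) -
        γ * (max 0 ((∑ x ∈ U, (v.count x : ℝ)) / U.card - β * (U.card - u0) + S)) ^ 2) ≤ μ U v := by
    intro m
    induction m using Nat.strong_induction_on with
    | _ m ih =>
    intro U v hm hU hv
    set u : ℝ := (U.card : ℝ) with hud
    set a := (∑ x ∈ U, (v.count x : ℝ)) / u - β * (u - u0) + S with ha
    have u1 : 0 ≤ u := Nat.cast_nonneg _
    have s0 : 0 ≤ (∑ x ∈ U, (v.count x : ℝ)) / u :=
      div_nonneg (sum_nonneg fun x _ => Nat.cast_nonneg _) u1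
    by_cases hter : U.card ≤ u0
    · refine le_trans ?_ (hη.trans (h0 U v))
      rw [Real.exp_le_exp]
      have t1 : u ≤ u0 := by rw [hud]; exact_mod_cast hter
      have t2 : S ≤ max 0 a := by
        refine le_trans ?_ (le_max_right _ _)
        have : 0 ≤ β * (u0 - u) := mul_nonneg hβ (by linarith)
        rw [ha]
        linarith
      have t3 : S ^ 2 ≤ (max 0 a) ^ 2 := pow_le_pow_left₀ hS t2 2
      have t4 : 0 ≤ (c + δ) * u := by positivity
      nlinarith
    push Not at hter
    have t1 : (u0 : ℝ) < u := by rw [hud]; exact_mod_cast hter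
    have k1 : (1 : ℝ) ≤ k := by exact_mod_cast hk
    have k2 : 2 * (k : ℝ) ≤ u0 := by exact_mod_cast hk2
    have u00 : (0 : ℝ) < u0 := by linarith
    have u2 : 0 < u := u00.trans t1
    have hne : U.Nonempty := card_pos.1 (by omega)
    have hρ0 : 0 ≤ ρ := by
      by_contra h
      push Not at h
      nlinarith
    set vh := v.filter fun x => x ∈ U with hvh
    set v1 := vh.take (K * U.card) with hv1
    set v2 := vh.drop (K * U.card) with hv2
    have m1 : ∀ x ∈ vh, x ∈ U := by
      intro x hx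
      simpa using (List.mem_filter.1 hx).2
    have m2 : ∑ x ∈ U, (v.count x : ℝ) = vh.length := by
      rw [← ind_sum_count U vh m1]
      refine sum_congr rfl fun x hx => ?_
      rw [hvh, List.count_filter (by simpa using hx)]
    have m3 : ∑ x ∈ U, (v2.count x : ℝ) = v2.length :=
      ind_sum_count U v2 fun x hx => m1 x (List.mem_of_mem_drop hx)
    have m4 : ∀ x ∈ U, 0 ≤ (v2.count x : ℝ) ∧ (v2.count x : ℝ) ≤ R := by
      intro x hx
      refine ⟨Nat.cast_nonneg _, le_trans ?_ (hv x hx)⟩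
      exact_mod_cast ((List.drop_sublist _ _).trans List.filter_sublist).count_le x
    set Ψ := (∑ y ∈ U, (v2.count y : ℝ)) / u with hΨ
    set θ := 2 * γ * max 0 a with hθ
    have θ0 : 0 ≤ θ := by
      have := le_max_left 0 a
      positivity
    have θ1 : θ ≤ Θ := by
      refine le_trans ?_ hΘ
      refine mul_le_mul_of_nonneg_left (max_le (by positivity) ?_) (by positivity)
      have b1 : (∑ x ∈ U, (v.count x : ℝ)) / u ≤ R := by
        rw [div_le_iff₀ u2]
        refine (sum_le_sum hv).trans ?_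
        rw [sum_const, nsmul_eq_mul, mul_comm]
      have b2 : 0 ≤ β * (u - u0) := mul_nonneg hβ (by linarith)
      rw [ha]
      linarith
    set er := 2 * (k : ℝ) ^ 2 * ρ / u0 with her
    have er0 : 0 ≤ er := by positivity
    set q : α → ℝ := fun x => c + δ / 2 - θ * β - θ * ((Ψ - v2.count x) / u) with hq
    have dr := fun D hD hDk => ind_drift U D (fun x => (v2.count x : ℝ)) R ρ u0 k hD hDk u00 k2
      t1.le m4 hρ
    have dr2 : ∀ x ∈ U, |(Ψ - v2.count x) / u| ≤ ρ := (dr ∅ (empty_subset _) (by simp)).2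
    obtain ⟨p, p1, p2, p3, p4⟩ := ind_F hE hC U q θ δ K v1 hne θ0 (θ1.trans_lt hK) (by
      have z : ∑ x ∈ U, (Ψ - v2.count x) / u = 0 := by
        rw [← sum_div, sum_sub_distrib, sum_const, nsmul_eq_mul, hΨ]
        rw [mul_div_cancel₀ _ u2.ne', sub_self, zero_div]
      simp only [hq]
      rw [sum_sub_distrib, ← mul_sum, z, sum_const, nsmul_eq_mul]
      have := hadm θ θ0
      have : u * (δ / 2 - Real.log (E θ)) ≤ u * (c + δ / 2 - θ * β) :=
        mul_le_mul_of_nonneg_left (by linarith) u1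
      linarith) (by rw [hv1, List.length_take]; exact min_le_left _ _)
    have Z0 : 0 < Z := (Real.exp_pos _).trans_le hZ
    have pZ : ∀ x ∈ U, p x ≤ Z / U.card := by
      intro x hx
      rw [le_div_iff₀ u2, mul_comm]
      refine (p2 x hx).trans (le_trans ?_ hZ)
      rw [Real.exp_le_exp]
      have b1 := (abs_le.1 (dr2 x hx)).1
      have b2 : θ * -ρ ≤ θ * ((Ψ - v2.count x) / u) := mul_le_mul_of_nonneg_left b1 θ0
      have b3 : θ * ρ ≤ Θ * ρ := mul_le_mul_of_nonneg_right θ1 hρ0
      have b4 : 0 ≤ θ * β := by positivity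
      simp only [hq]
      linarith
    set lΦ := -((c + δ) * u) - γ * (max 0 a) ^ 2 + θ * K + (δ / 2 - Θ * er - γ * b ^ 2) with hlΦ
    have win := hW α μ U p Z (Real.exp lΦ) k v1 v2 hrec (fun V v => hη0.le.trans (h0 V v)) hne
      (by omega) p1 pZ p3 (Real.exp_pos _).le (by
      intro D hD hDne hDk
      set d : ℝ := (D.card : ℝ) with hd
      have d1 : 1 ≤ d := by rw [hd]; exact_mod_cast hDne.card_pos
      have dk : d ≤ k := by rw [hd]; exact_mod_cast hDk
      have c1 : (U \ D).card = U.card - D.card := card_sdiff_of_subset hD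
      have c2 : ((U \ D).card : ℝ) = u - d := by
        rw [c1, Nat.cast_sub (card_le_card hD)]
      set W := (∑ x ∈ D, (Ψ - v2.count x)) / u with hWd
      have w1 : |W| ≤ k * ρ := by
        rw [hWd, sum_div]
        refine (abs_sum_le_sum_abs _ _).trans ?_
        refine (sum_le_sum fun x hx => dr2 x (hD hx)).trans ?_
        rw [sum_const, nsmul_eq_mul]
        exact mul_le_mul_of_nonneg_right dk hρ0
      set Δ := -K + β * d + W + er with hΔ
      have w2 : |Δ| ≤ b := by
        have b1 := abs_le.1 w1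
        have b2 : β * d ≤ β * k := mul_le_mul_of_nonneg_left dk hβ
        have b3 : 0 ≤ β * d := by positivity
        have b4 : (0 : ℝ) ≤ K := Nat.cast_nonneg _
        have b5 : 0 ≤ β * k := by positivity
        rw [abs_le]
        constructor <;> linarith [b1.1, b1.2]
      have g1 : ∏ x ∈ D, (U.card * p x) ≤ Real.exp (∑ x ∈ D, q x) := by
        rw [Real.exp_sum]
        exact prod_le_prod (fun x hx => (mul_pos u2 (p1 x (hD hx))).le) fun x hx => p2 x (hD hx)
      have g2 : ∑ x ∈ D, q x = d * (c + δ / 2 - θ * β) - θ * W := by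
        simp only [hq]
        rw [sum_sub_distrib, sum_const, nsmul_eq_mul, ← mul_sum, hWd, sum_div]
      have g3 : ∀ a', a' ≤ a + Δ → Real.exp lΦ * ∏ x ∈ D, (U.card * p x)
          ≤ Real.exp (-((c + δ) * (u - d)) - γ * (max 0 a') ^ 2) := by
        intro a' ha'
        refine (mul_le_mul_of_nonneg_left g1 (Real.exp_pos _).le).trans ?_
        rw [← Real.exp_add, Real.exp_le_exp, g2, hlΦ]
        have b1 := mul_le_mul_of_nonneg_left (ind_sq a Δ a' b ha' w2) hγ
        have b2 : θ * er ≤ Θ * er := mul_le_mul_of_nonneg_right θ1 er0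
        have b3 : γ * (2 * max 0 a * Δ) = θ * Δ := by rw [hθ]; ring
        have b4 : θ * Δ = -(θ * K) + θ * β * d + θ * W + θ * er := by rw [hΔ]; ring
        have b5 : δ / 2 * 1 ≤ δ / 2 * d := mul_le_mul_of_nonneg_left d1 (by positivity)
        rw [mul_add, mul_add, b3, b4] at b1
        clear_value lΦ Δ W d q er θ Ψ a u
        linarith
      by_cases hl : vh.length ≤ K * U.card
      · have e : v2 = [] := by rw [hv2]; exact List.drop_eq_nil_of_le hl
        rw [e]
        refine (g3 _ le_rfl).trans (le_trans ?_ (h1 _ (card_pos.1 (by omega))))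
        rw [Real.exp_le_one_iff]
        have b1 : 0 ≤ (c + δ) * (u - d) := mul_nonneg (by positivity) (by linarith)
        have b2 : 0 ≤ γ * (max 0 (a + Δ)) ^ 2 := by positivity
        linarith
      · push Not at hl
        have b0 := ih (U \ D).card (by have := hDne.card_pos; omega) (U \ D) v2 rfl (by omega)
          (fun x hx => (m4 x (mem_sdiff.1 hx).1).2)
        refine le_trans ?_ b0
        have b1 := (dr D hD hDk).1
        rw [c2] at b1 ⊢
        apply g3
        have b2 : Ψ = (∑ x ∈ U, (v.count x : ℝ)) / u - K := by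
          rw [hΨ, m3, m2, hv2, List.length_drop, Nat.cast_sub hl.le]
          push_cast
          field_simp
          rfl
        rw [ha, hΔ]
        linarith)
    rw [hv1, hv2, List.take_append_drop] at win
    refine le_trans ?_ (win.trans (hf U v))
    have e1 : (Z / u) ^ k * (v1.length.choose k : ℝ) ≤ (Z * K) ^ k / k.factorial := by
      have b1 : (v1.length.choose k : ℝ) ≤ (v1.length : ℝ) ^ k / k.factorial :=
        Nat.choose_le_pow_div k v1.length
      have b2 : (v1.length : ℝ) ≤ K * u := by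
        rw [hv1, List.length_take, hud]
        exact_mod_cast min_le_left _ _
      calc (Z / u) ^ k * (v1.length.choose k : ℝ) ≤ (Z / u) ^ k * ((K * u) ^ k / k.factorial) := by
            refine mul_le_mul_of_nonneg_left (b1.trans ?_) (by positivity)
            gcongr
        _ = _ := by
            rw [← mul_div_assoc, ← mul_pow]
            congr 2
            field_simp
    have e2 : (k : ℝ) ^ 2 * Z / u ≤ (k : ℝ) ^ 2 * Z / u0 := by gcongr
    have e3 : 0 ≤ τ := by
      have b1 : 0 ≤ τ * Real.exp (-(Θ * K)) := le_trans (by positivity) hτ1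
      exact nonneg_of_mul_nonneg_left b1 (Real.exp_pos _)
    have e4 : Real.exp (-(Θ * K)) ≤ Real.exp (-(θ * K)) := by
      rw [Real.exp_le_exp]
      have := mul_le_mul_of_nonneg_right θ1 (Nat.cast_nonneg K : (0 : ℝ) ≤ K)
      linarith
    have e5 := mul_le_mul_of_nonneg_left e4 e3
    have e6 : (1 - τ) * Real.exp (-(θ * K)) ≤
        FF U p v1 - (Z / u) ^ k * v1.length.choose k - (k : ℝ) ^ 2 * Z / u := by linarith
    refine le_trans ?_ (mul_le_mul_of_nonneg_left e6 (Real.exp_pos _).le)
    have e7 : Real.exp lΦ * ((1 - τ) * Real.exp (-(θ * K)))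
        = Real.exp (-((c + δ) * u) - γ * (max 0 a) ^ 2)
          * ((1 - τ) * Real.exp (δ / 2 - Θ * er - γ * b ^ 2)) := by
      rw [hlΦ, Real.exp_add, Real.exp_add, Real.exp_neg (θ * K)]
      field_simp
    rw [e7]
    exact le_mul_of_one_le_right (Real.exp_pos _).le hτ2
  intro U v hU hv
  exact main _ U v rfl hU hv

end Pool.Agent.P.MP_02a1b3_co.As
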