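import Pool.Agent.P.MP_02a1b3_co.As.Defs

set_option autoImplicit false

open Finset

namespace Pool.Agent.P.MP_02a1b3_co.As

theorem kraft_update {ι β : Type} [Fintype ι] [DecidableEq ι] [Fintype β] (g : (ι → β) → ℝ)
    (a : ι) : ∑ x : ι → β, ∑ b : β, g (Function.update x a b) =
      (Fintype.card β : ℝ) * ∑ x : ι → β, g x := by
  have hinv : Function.Involutive
      fun p : (ι → β) × β => (Function.update p.1 a p.2, p.1 a) := by
    rintro ⟨x, b⟩
    simp
  have h1 := Equiv.sum_comp hinv.toPerm (fun p : (ι → β) × β => g p.1)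
  rw [Fintype.sum_prod_type, Fintype.sum_prod_type] at h1
  have h2 : ∑ x : ι → β, ∑ b : β, g (Function.update x a b) =
      ∑ x : ι → β, ∑ _b : β, g x := h1
  rw [h2, mul_sum]
  refine sum_congr rfl fun x _ => ?_
  rw [sum_const, card_univ, nsmul_eq_mul]

theorem kraft_mass {ι β : Type} [Fintype ι] [DecidableEq ι] [Fintype β] [DecidableEq β]
    (c : ι → ℕ) (O : ι → (ι → β) → Finset β)
    (hO : ∀ j x x', (∀ j', c j' < c j → x j' = x' j') → O j x = O j x') (s : Finset ι) :
    (Fintype.card β : ℝ) ^ s.card *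
      ∑ x : ι → β, ∏ j ∈ s, (if x j ∈ O j x then ((O j x).card : ℝ)⁻¹ else 0) ≤
      (Fintype.card β : ℝ) ^ Fintype.card ι := by
  induction s using Finset.induction_on_max_value c with
  | empty => simp
  | insert a s ha hmax ih =>
    refine le_trans ?_ ih
    rw [card_insert_of_notMem ha, pow_succ, mul_assoc, ← kraft_update _ a]
    refine mul_le_mul_of_nonneg_left (sum_le_sum fun x _ => ?_) (by positivity)
    have hup : ∀ j b, c j ≤ c a → O j (Function.update x a b) = O j x := by
      intro j b hj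
      refine hO j _ _ fun j' hj' => Function.update_of_ne ?_ _ _
      rintro rfl
      omega
    have h1 : ∀ b, ∏ j ∈ insert a s, (if Function.update x a b j ∈ O j (Function.update x a b)
        then ((O j (Function.update x a b)).card : ℝ)⁻¹ else 0) =
        (if b ∈ O a x then ((O a x).card : ℝ)⁻¹ else 0) *
          ∏ j ∈ s, (if x j ∈ O j x then ((O j x).card : ℝ)⁻¹ else 0) := by
      intro b
      rw [prod_insert ha, hup a b le_rfl, Function.update_self]
      congr 1
      refine prod_congr rfl fun j hj => ?_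
      rw [hup j b (hmax j hj), Function.update_of_ne (by rintro rfl; exact ha hj)]
    simp_rw [h1]
    rw [← sum_mul]
    refine mul_le_of_le_one_left (prod_nonneg fun j _ => by positivity) ?_
    rw [← sum_filter, filter_mem_eq_inter, univ_inter, sum_const, nsmul_eq_mul]
    exact mul_inv_le_one

theorem kraft : S_Kraft := by
  intro ι β _ _ _ _ c O X hO hX
  rcases X.eq_empty_or_nonempty with rfl | ⟨x₀, hx₀⟩
  · simp
  have hXpos : (0 : ℝ) < X.card := by exact_mod_cast card_pos.2 ⟨x₀, hx₀⟩
  have hB : (0 : ℝ) < (Fintype.card β : ℝ) ^ Fintype.card ι := by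
    have : 0 < Fintype.card (ι → β) := Fintype.card_pos_iff.2 ⟨x₀⟩
    rw [Fintype.card_fun] at this
    exact_mod_cast this
  have h1 := kraft_mass c O hO univ
  rw [card_univ] at h1
  have h2 : ∑ x : ι → β, ∏ j, (if x j ∈ O j x then ((O j x).card : ℝ)⁻¹ else 0) ≤ 1 :=
    (mul_le_iff_le_one_right hB).1 h1
  have hpos : ∀ x ∈ X, ∀ j, (0 : ℝ) < (O j x).card := fun x hx j => by
    exact_mod_cast card_pos.2 ⟨_, hX x hx j⟩
  have h3 : ∑ x ∈ X, ∏ j, ((O j x).card : ℝ)⁻¹ ≤ 1 := by
    refine le_trans ?_ h2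
    refine le_trans (le_of_eq (sum_congr rfl fun x hx => prod_congr rfl fun j _ => ?_))
      (sum_le_sum_of_subset_of_nonneg (subset_univ X) fun x _ _ =>
        prod_nonneg fun j _ => by positivity)
    rw [if_pos (hX x hx j)]
  have h4 : ∀ x ∈ X, Real.log X.card - ∑ j, Real.log (O j x).card ≤
      X.card * ∏ j, ((O j x).card : ℝ)⁻¹ - 1 := by
    intro x hx
    have hP : (0 : ℝ) < ∏ j, ((O j x).card : ℝ)⁻¹ :=
      prod_pos fun j _ => inv_pos.2 (hpos x hx j)
    have h5 := Real.log_le_sub_one_of_pos (mul_pos hXpos hP)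
    rw [Real.log_mul hXpos.ne' hP.ne',
      Real.log_prod fun j _ => (inv_pos.2 (hpos x hx j)).ne'] at h5
    simp_rw [Real.log_inv] at h5
    rw [sum_neg_distrib] at h5
    linarith
  have h6 := sum_le_sum h4
  rw [sum_sub_distrib, sum_sub_distrib, sum_const, sum_const, nsmul_eq_mul, nsmul_eq_mul,
    ← mul_sum] at h6
  have h7 := mul_le_mul_of_nonneg_left h3 hXpos.le
  linarith

end Pool.Agent.P.MP_02a1b3_co.As
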