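import Pool.Agent.P.MP_02a1b3_co.As.Defs

set_option autoImplicit false

open Finset

namespace Pool.Agent.P.MP_02a1b3_co.As

theorem low_ev (a b : ℝ) {d : ℝ} (hd : 0 < d) :
    ∀ᶠ n : ℕ in Filter.atTop, a + b * Real.log n ≤ d * n := by
  have h := ((Asymptotics.isLittleO_const_id_atTop a).add
    (Real.isLittleO_log_id_atTop.const_mul_left b)).bound hd
  filter_upwards [tendsto_natCast_atTop_atTop.eventually h] with n hn
  rw [id, Real.norm_natCast] at hn
  exact (le_abs_self _).trans hn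

theorem low_log {A r D m : ℝ} (k : ℕ) (hA : 0 < A) (hr : 0 < r) (hD : 0 ≤ D) (hm : 0 < m)
    (h : m ≤ A * r ^ k) : Real.log (A * r ^ k + D) ≤ Real.log A + k * Real.log r + D / m := by
  have h0 : 0 < A * r ^ k := hm.trans_le h
  have e : A * r ^ k + D = A * r ^ k * (1 + D / (A * r ^ k)) := by field_simp
  have h1 : 0 < 1 + D / (A * r ^ k) := by positivity
  rw [e, Real.log_mul h0.ne' h1.ne', Real.log_mul hA.ne' (pow_pos hr k).ne', Real.log_pow]
  have h2 := Real.log_le_sub_one_of_pos h1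
  have h3 : D / (A * r ^ k) ≤ D / m := div_le_div_of_nonneg_left hD hm h
  linarith

/-- the count for one cut of the word -/
theorem low_one (h1 : S_Cher) (h2 : S_Ent) {n k T J : ℕ} {θ d e0 L : ℝ} (hn : 0 < n) (hk : 0 < k)
    (hT : 0 < T) (hθ : 0 < θ) (he0 : 0 < e0) (he : e0 ≤ E (-θ)) (hJ : n ≤ J * k + k)
    (hs : ∑ s ∈ range T, Real.log (((s : ℝ) + 1) / T) ≤ T * (d - 1))
    (W : Fin J → List (Fin n)) (hW : ∑ j, ((W j).length : ℝ) ≤ L + n * J)
    (X : Finset (Fin J → Fin k → Fin n)) (hX : ∀ x ∈ X, (∀ j, (List.ofFn (x j)).Sublist (W j)) ∧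
      Function.Injective (fun q : Fin J × Fin k => x q.1 q.2)) :
    (X.card : ℝ) ≤
      Real.exp (θ * L / n + θ * J + J * k * (Real.log (n * E (-θ)) - 1) + J * k * d +
        J * k / n * (3 * (k : ℝ) ^ 2 * T ^ k / e0 ^ k)) := by
  have hn' : (0 : ℝ) < n := by exact_mod_cast hn
  have hk' : (0 : ℝ) < k := by exact_mod_cast hk
  have hT' : (0 : ℝ) < T := by exact_mod_cast hT
  have hE : 0 < n * E (-θ) := mul_pos hn' (he0.trans_le he)
  have hD : (0 : ℝ) < 3 * (k : ℝ) ^ 3 * (n : ℝ) ^ (k - 1) := by positivity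
  refine le_trans (Nat.cast_le.2 (card_le_card fun x hx => ?_))
    ((h2 (Fin n) (Fin J) k T _ (fun j => Real.exp (θ * (W j).length / n) * (n * E (-θ)) ^ k)
    _ hT hD (fun j => h1 n k θ (W j) hn hθ) (by simp) (by simpa using hJ)).trans
    (Real.exp_le_exp.2 ?_))
  · simpa only [mem_filter, mem_univ, true_and] using hX x hx
  set c : ℝ := 3 * (k : ℝ) ^ 3 * (n : ℝ) ^ (k - 1) / ((n * e0) ^ k * (1 / T) ^ k) with hc
  have ec : c = k / n * (3 * (k : ℝ) ^ 2 * T ^ k / e0 ^ k) := by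
    obtain ⟨k, rfl⟩ : ∃ k', k = k' + 1 := ⟨k - 1, by omega⟩
    rw [hc, Nat.add_sub_cancel, mul_pow, one_div, inv_pow, pow_succ (n : ℝ) k]
    field_simp
  have key : ∀ j, (∑ s ∈ range T, Real.log (Real.exp (θ * (W j).length / n) *
      (n * E (-θ)) ^ k * (((s : ℝ) + 1) / T) ^ k + 3 * (k : ℝ) ^ 3 * (n : ℝ) ^ (k - 1))) / T ≤
      θ / n * (W j).length + (k * Real.log (n * E (-θ)) + k * (d - 1) + c) := fun j => by
    rw [div_le_iff₀ hT']
    refine (sum_le_sum fun s _ => low_log k (by positivity) (by positivity) hD.le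
      (m := (n * e0) ^ k * (1 / T) ^ k) (by positivity) ?_).trans ?_
    · have a1 : 1 ≤ Real.exp (θ * (W j).length / n) := Real.one_le_exp (by positivity)
      have a2 : (0 : ℝ) ≤ s := Nat.cast_nonneg s
      calc _ = 1 * (n * e0) ^ k * (1 / T) ^ k := by rw [one_mul]
        _ ≤ _ := by gcongr; linarith
    · rw [sum_add_distrib, sum_add_distrib, ← mul_sum, sum_const, sum_const, card_range,
        nsmul_eq_mul, nsmul_eq_mul, Real.log_mul (Real.exp_pos _).ne' (pow_pos hE k).ne',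
        Real.log_exp, Real.log_pow, ← hc]
      have a3 := mul_le_mul_of_nonneg_left hs hk'.le
      have a4 : θ * (W j).length / n = θ / n * (W j).length := by ring
      rw [a4]
      linarith
  refine (sum_le_sum fun j _ => key j).trans ?_
  rw [sum_add_distrib, ← mul_sum, sum_const, card_univ, Fintype.card_fin, nsmul_eq_mul, ec]
  have a5 := mul_le_mul_of_nonneg_left hW (div_pos hθ hn').le
  have a6 : θ / n * (L + n * J) = θ * L / n + θ * J := by field_simp
  rw [a6] at a5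
  have a7 : (J : ℝ) * (k * Real.log (n * E (-θ)) + k * (d - 1) +
      k / n * (3 * (k : ℝ) ^ 2 * T ^ k / e0 ^ k)) = J * k * (Real.log (n * E (-θ)) - 1) +
      J * k * d + J * k / n * (3 * (k : ℝ) ^ 2 * T ^ k / e0 ^ k) := by ring
  linarith

theorem low (hE : S_E) (h1 : S_Cher) (h2 : S_Ent) (h3 : S_Cut) (h4 : S_Blocks) (h5 : S_Num) :
    S_Low := by
  intro δ Θ hδ hΘ
  obtain ⟨d, hd, rfl⟩ : ∃ d, 0 < d ∧ δ = 5 * d := ⟨δ / 5, by positivity, by ring⟩
  have he0 : 0 < E (-Θ) := hE.2.1 _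
  obtain ⟨T, hT, hs⟩ := h5.1 d hd
  obtain ⟨k, k1, k2, hk⟩ := ((low_ev Θ 0 hd).and ((low_ev 2 1 hd).and
    (Filter.eventually_gt_atTop 0))).exists
  obtain ⟨n0, hn0⟩ := Filter.eventually_atTop.1 ((low_ev 0 k hd).and
    ((low_ev (Real.exp 1) 0 he0).and ((low_ev (3 * (k : ℝ) ^ 2 * T ^ k / E (-Θ) ^ k) 0 hd).and
      (Filter.eventually_gt_atTop 0))))
  refine ⟨n0, fun n hn θ hθ hθ' w hw => ?_⟩
  obtain ⟨n1, n2, n3, hn⟩ := hn0 n hn
  simp only [zero_mul, add_zero, zero_add, one_mul] at k1 k2 n1 n2 n3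
  have hn' : (0 : ℝ) < n := by exact_mod_cast hn
  have hk' : (0 : ℝ) < k := by exact_mod_cast hk
  have he : E (-Θ) ≤ E (-θ) := hE.2.2.2.1 (by linarith)
  have he1 : 0 < E (-θ) := he0.trans_le he
  have b4 := h4 n k w hn hk
  have j1 : n / k * k ≤ n := Nat.div_mul_le_self n k
  have j2 : n ≤ n / k * k + k := (Nat.lt_div_mul_add hk).le
  have j3 : n / k ≤ n := Nat.div_le_self n k
  generalize n / k = J at b4 j1 j2 j3
  have j1' : (J : ℝ) * k ≤ n := by exact_mod_cast j1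
  have j0 : (0 : ℝ) ≤ J := Nat.cast_nonneg J
  obtain ⟨𝒜, a1, a2, a3⟩ := h3 (Fin n) n J w hn
  set M : ℝ := n.factorial * Real.exp (θ * w.length / n + n * Real.log (E (-θ)) + 3 * d * n)
    with hM
  have hX : ∀ W ∈ 𝒜, ((univ.filter fun x : Fin J → Fin k → Fin n =>
      (∀ j, (List.ofFn (x j)).Sublist (W j)) ∧
        Function.Injective (fun q : Fin J × Fin k => x q.1 q.2)).card : ℝ) ≤ M := fun W hW => by
    refine (low_one h1 h2 (L := w.length) hn hk hT hθ he0 he j2 hs W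
      (by exact_mod_cast a2 W hW) _ fun x hx => (mem_filter.1 hx).2).trans ?_
    refine le_trans ?_ (mul_le_mul_of_nonneg_right (h5.2.2 n) (Real.exp_pos _).le)
    rw [← Real.exp_add, Real.exp_le_exp]
    have c1 : 1 ≤ Real.log (n * E (-θ)) := by
      rw [Real.le_log_iff_exp_le (by positivity)]
      nlinarith
    have c2 := mul_le_mul_of_nonneg_right j1' (sub_nonneg.2 c1)
    rw [Real.log_mul hn'.ne' he1.ne'] at c2 ⊢
    have c3 := mul_le_mul_of_nonneg_right j1' hd.le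
    have c4 : θ * J ≤ d * k * J := mul_le_mul_of_nonneg_right (hθ'.trans k1) j0
    have c5 : (J : ℝ) * k / n * (3 * (k : ℝ) ^ 2 * T ^ k / E (-Θ) ^ k) ≤ 1 * (d * n) :=
      mul_le_mul ((div_le_one hn').2 j1') n3 (by positivity) zero_le_one
    linarith
  have hA : (𝒜.card : ℝ) ≤ Real.exp (d * n) := by
    refine (Nat.cast_le.2 a1).trans ((h5.2.1 _ _ (k : ℝ)⁻¹ (inv_pos.2 hk')).trans
      (Real.exp_le_exp.2 ?_))
    have c1 : w.length / n + J ≤ 2 * n := by
      have := Nat.div_le_of_le_mul hw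
      omega
    have c2 : ((w.length / n + J : ℕ) : ℝ) ≤ 2 * n := by exact_mod_cast c1
    have c3 : 0 ≤ Real.log k := Real.log_natCast_nonneg k
    have c4 := mul_le_mul_of_nonneg_right j1' c3
    have c5 := mul_le_mul_of_nonneg_right k2 hn'.le
    rw [Real.log_inv]
    refine le_of_mul_le_mul_left ?_ hk'
    rw [mul_sub, ← mul_assoc, mul_inv_cancel₀ hk'.ne', one_mul]
    linarith
  have hP : (n : ℝ) ^ k ≤ Real.exp (d * n) := by
    rw [← Real.exp_log (pow_pos hn' k), Real.log_pow]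
    exact Real.exp_le_exp.2 n1
  have hY : ((univ.filter fun x : Fin J → Fin k → Fin n =>
      Function.Injective (fun q : Fin J × Fin k => x q.1 q.2) ∧
      (List.ofFn fun j => List.ofFn (x j)).flatten.Sublist w).card : ℝ) ≤ 𝒜.card * M := by
    have c1 := card_le_card (s := univ.filter fun x : Fin J → Fin k → Fin n =>
        Function.Injective (fun q : Fin J × Fin k => x q.1 q.2) ∧
        (List.ofFn fun j => List.ofFn (x j)).flatten.Sublist w)
      (t := 𝒜.biUnion fun W => univ.filter fun x : Fin J → Fin k → Fin n =>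
        (∀ j, (List.ofFn (x j)).Sublist (W j)) ∧
          Function.Injective (fun q : Fin J × Fin k => x q.1 q.2)) fun x hx => by
      obtain ⟨-, x1, x2⟩ := mem_filter.1 hx
      obtain ⟨W, hW, x3⟩ := a3 _ x2
      exact mem_biUnion.2 ⟨W, hW, mem_filter.2 ⟨mem_univ _, x3, x1⟩⟩
    refine (Nat.cast_le.2 (c1.trans card_biUnion_le)).trans ?_
    rw [Nat.cast_sum, ← nsmul_eq_mul]
    exact sum_le_card_nsmul _ _ _ hX
  have hM0 : 0 ≤ M := by positivity
  refine (Nat.cast_le.2 b4).trans ?_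
  rw [Nat.cast_mul, Nat.cast_pow]
  refine (mul_le_mul hP (hY.trans (mul_le_mul_of_nonneg_right hA hM0)) (Nat.cast_nonneg _)
    (Real.exp_pos _).le).trans (le_of_eq ?_)
  rw [hM, ← mul_assoc, ← Real.exp_add, mul_left_comm, ← Real.exp_add]
  congr 2
  ring

end Pool.Agent.P.MP_02a1b3_co.As
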