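import Pool.Agent.P.MP_02a1b3_co.As.Defs

set_option autoImplicit false

open Finset

namespace Pool.Agent.P.MP_02a1b3_co.As

theorem mains_log (hE : S_E) (θ : ℝ) : Real.log (E (-θ)) = Real.log (E θ) - θ := by
  rw [hE.2.2.2.2.2.2.1 θ, Real.log_mul (Real.exp_pos θ).ne' (hE.2.1 _).ne', Real.log_exp]
  ring

theorem mains_big (hE : S_E) (h1 : S_Gap) (h2 : S_Low) (h3 : S_Up) (h4 : S_Sym) (η : ℝ)
    (hη : 0 < η) : ∃ n0 : ℕ, ∀ (n : ℕ) [NeZero n], n0 ≤ n → ∀ (w : List (Fin n)) (q : ℕ), q < n →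
      (w.length : ℝ) / n ^ 2 + 4 * η ≤ q / n → N w ≤ N (per n (q * n)) := by
  obtain ⟨Θ, C, g, hΘ, hC, hg, h1⟩ := h1 η hη
  obtain ⟨n2, h2⟩ := h2 (g / 2) Θ (half_pos hg) hΘ
  obtain ⟨n3, h3⟩ := h3 η (g / 2) C hη (half_pos hg) hC
  refine ⟨max n2 n3, fun n _ hn w q hq hb => ?_⟩
  have hn0 : (0 : ℝ) < n := by exact_mod_cast Nat.pos_of_ne_zero (NeZero.ne n)
  have h2 := h2 n (le_of_max_le_left hn)
  have h3 := h3 n (le_of_max_le_right hn)
  have h4 : (N (per n (q * n)) : ℝ) + N (per n ((n - q) * n)) = n.factorial := by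
    exact_mod_cast h4 n q hq.le
  set β : ℝ := (w.length : ℝ) / n ^ 2 with hβ
  set b : ℝ := (q : ℝ) / n with hbb
  have hβ0 : 0 ≤ β := by positivity
  have hb0 : 0 ≤ b := by positivity
  have hb1 : b < 1 := by
    rw [hbb, div_lt_one hn0]
    exact_mod_cast hq
  have hL : (w.length : ℝ) = β * n ^ 2 := by
    rw [hβ]
    field_simp
  have hL' : ((per n ((n - q) * n)).length : ℝ) = (1 - b) * n ^ 2 := by
    rw [per_length, Nat.cast_mul, Nat.cast_sub hq.le, hbb]
    field_simp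
  have hf : (0 : ℝ) < n.factorial := by exact_mod_cast n.factorial_pos
  have hw : w.length ≤ n * n := by
    have : (w.length : ℝ) ≤ n * n := by
      rw [hL]
      nlinarith [mul_pos hn0 hn0]
    exact_mod_cast this
  have hw' : (per n ((n - q) * n)).length ≤ n * n := by
    rw [per_length]
    exact Nat.mul_le_mul_right _ (Nat.sub_le _ _)
  suffices h : (N w : ℝ) ≤ N (per n (q * n)) by exact_mod_cast h
  by_cases hc : β ≤ 1 / 2 - 2 * η
  · obtain ⟨c, θ, hc0, hcC, hθ0, hθ, a1, a2⟩ := h1 (1 - b + η) (1 - β) (by linarith) (by linarith)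
      (by linarith)
    have b1 := h3 (1 - b) c (by linarith) (by linarith) hc0 hcC a1 _ hL'.le
    have b2 := h2 θ hθ0 hθ w hw
    have b3 : θ * w.length / n + n * Real.log (E (-θ)) + g / 2 * n ≤ -((c + g / 2) * n) := by
      have e : θ * w.length / n = θ * β * n := by
        rw [hL]
        field_simp
      rw [e, mains_log hE]
      nlinarith
    have b4 := mul_le_mul_of_nonneg_left (Real.exp_le_exp.2 b3) hf.le
    linarith
  · obtain ⟨c, θ, hc0, hcC, hθ0, hθ, a1, a2⟩ := h1 (β + η) b (by linarith) (by linarith)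
      (by linarith [not_le.1 hc])
    have b1 := h3 β c hβ0 (by linarith) hc0 hcC a1 w hL.le
    have b2 := h2 θ hθ0 hθ _ hw'
    have b3 : θ * (per n ((n - q) * n)).length / n + n * Real.log (E (-θ)) + g / 2 * n ≤
        -((c + g / 2) * n) := by
      have e : θ * (per n ((n - q) * n)).length / n = θ * (1 - b) * n := by
        rw [hL']
        field_simp
      rw [e, mains_log hE]
      nlinarith
    have b4 := mul_le_mul_of_nonneg_left (Real.exp_le_exp.2 b3) hf.le
    linarith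

theorem mainS (hE : S_E) (h1 : S_Gap) (h2 : S_Low) (h3 : S_Up) (h4 : S_Sym) (h5 : S_Small) :
    S_Main := by
  intro ε hε
  set e : ℝ := min ε 1 with he
  have he0 : 0 < e := lt_min hε one_pos
  have he1 : e ≤ 1 := min_le_right _ _
  have he2 : e ≤ ε := min_le_left _ _
  obtain ⟨δ0, hδ0, n1, h5⟩ := h5 e he0
  obtain ⟨n2, hbig⟩ := mains_big hE h1 h2 h3 h4 (e * δ0 / 8) (by positivity)
  obtain ⟨n3, hn3⟩ := exists_nat_ge (4 / (e * δ0))
  refine ⟨max n1 (max n2 n3), fun n _ hn w => ?_⟩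
  have hn1 : n1 ≤ n := le_of_max_le_left hn
  have hn2 : n2 ≤ n := le_of_max_le_left (le_of_max_le_right hn)
  have hn3' : n3 ≤ n := le_of_max_le_right (le_of_max_le_right hn)
  have hpos : 0 < n := Nat.pos_of_ne_zero (NeZero.ne n)
  have hn0 : (0 : ℝ) < n := by exact_mod_cast hpos
  have hL0 : (0 : ℝ) ≤ w.length := by positivity
  set L' : ℕ := ⌊(1 + e) * w.length⌋₊ with hL'
  have hmono : L' ≤ ⌊(1 + ε) * w.length⌋₊ :=
    Nat.floor_mono (mul_le_mul_of_nonneg_right (by linarith) hL0)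
  refine le_trans ?_ (N_per_mono n hmono)
  have hlt : (1 + e) * w.length < L' + 1 := Nat.lt_floor_add_one _
  have hle : L' ≤ 2 * w.length := by
    have : (L' : ℝ) ≤ 2 * w.length :=
      (Nat.floor_le (by positivity)).trans (mul_le_mul_of_nonneg_right (by linarith) hL0)
    exact_mod_cast this
  by_cases c1 : w.length < n
  · rw [N_eq_zero c1]
    exact Nat.zero_le _
  by_cases c2 : (w.length : ℝ) ≤ δ0 * n ^ 2
  · exact (N_le_UU hpos w).trans (h5 n hn1 _ _ (not_lt.1 c1) c2 hlt.le hle)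
  refine le_trans ?_ (N_per_mono n (Nat.div_mul_le_self L' n))
  by_cases c3 : n ≤ L' / n
  · have a1 := h4 n n le_rfl
    have a2 : N (per n ((n - n) * n)) = 0 := N_eq_zero (by simpa [per_length] using hpos)
    have a3 := N_per_mono n (Nat.mul_le_mul_right n c3)
    have a4 := N_le_fac w
    omega
  refine hbig n hn2 w _ (not_le.1 c3) ?_
  have a1 : L' + 1 ≤ L' / n * n + n := by
    have := Nat.div_add_mod L' n
    have := Nat.mod_lt L' hpos
    rw [mul_comm]
    omega
  have a2 : (L' : ℝ) + 1 ≤ (L' / n : ℕ) * n + n := by exact_mod_cast a1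
  have a3 : 4 / (e * δ0) ≤ n := hn3.trans (by exact_mod_cast hn3')
  rw [div_le_iff₀ (by positivity)] at a3
  have a4 := not_le.1 c2
  rw [le_div_iff₀ hn0, ← mul_le_mul_iff_left₀ hn0]
  have a5 : ((w.length : ℝ) / n ^ 2 + 4 * (e * δ0 / 8)) * n * n =
      w.length + e * δ0 / 2 * n ^ 2 := by
    field_simp
    ring
  rw [a5]
  have a6 : e * (δ0 * n ^ 2) ≤ e * w.length := mul_le_mul_of_nonneg_left a4.le he0.le
  nlinarith

end Pool.Agent.P.MP_02a1b3_co.As
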