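import Pool.Agent.P.MP_02a1b3_co.As.Defs

open Finset

namespace Pool.Agent.P.MP_02a1b3_co.As

section

variable {α : Type} [DecidableEq α]

theorem miss_mem {V : Finset α} {l : List α} :
    l ∈ V.toList.permutations.toFinset ↔ l.Nodup ∧ l.toFinset = V := by
  rw [List.mem_toFinset, List.mem_permutations]
  constructor
  · intro h
    exact ⟨h.nodup_iff.2 V.nodup_toList, by rw [List.toFinset_eq_of_perm _ _ h, toList_toFinset]⟩
  · rintro ⟨h1, h2⟩
    exact List.perm_of_nodup_nodup_toFinset_eq h1 V.nodup_toList (by rw [h2, toList_toFinset])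

theorem miss_card (V : Finset α) : V.toList.permutations.toFinset.card = V.card.factorial := by
  rw [List.toFinset_card_of_nodup (List.nodup_permutations _ V.nodup_toList),
    List.length_permutations, length_toList]

theorem miss_one (V : Finset α) (v : List α) (f : α → List α)
    (h : ∀ x ∈ V, ∀ σ : List α, (x :: σ).Sublist v → σ.Sublist (f x)) :
    ∑ x ∈ V, miss (V.erase x) (f x) ≤ miss V v := by
  unfold miss
  rw [← card_sigma]
  refine card_le_card_of_injOn (fun p => p.1 :: p.2) ?_ ?_
  · rintro ⟨x, σ⟩ hp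
    obtain ⟨hx, hσ⟩ := mem_sigma.1 (mem_coe.1 hp)
    obtain ⟨h1, h2⟩ := mem_filter.1 hσ
    obtain ⟨h3, h4⟩ := miss_mem.1 h1
    refine mem_coe.2 (mem_filter.2 ⟨miss_mem.2 ⟨List.nodup_cons.2 ⟨fun h5 => ?_, h3⟩, ?_⟩,
      fun h5 => h2 (h x hx σ h5)⟩)
    · have h6 := List.mem_toFinset.2 h5
      rw [h4] at h6
      exact notMem_erase x V h6
    · rw [List.toFinset_cons, h4, insert_erase hx]
  · rintro ⟨x, σ⟩ - ⟨y, τ⟩ - hxy
    obtain ⟨rfl, rfl⟩ := List.cons.inj hxy
    rfl

theorem miss_four (V : Finset α) (v : List α) (m : ℕ) : ∀ H : Finset α, H.card = m →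
    Disjoint V H → m.factorial * miss V v ≤ miss (V ∪ H) v := by
  induction m with
  | zero =>
    intro H h _
    rw [card_eq_zero.1 h]
    simp
  | succ m ih =>
    intro H h hd
    refine le_trans ?_ ((sum_le_sum_of_subset (subset_union_right (s₁ := V) (s₂ := H))).trans
      (miss_one (V ∪ H) v (fun _ => v) fun x _ σ hσ => (List.sublist_cons_self x σ).trans hσ))
    rw [Nat.factorial_succ, mul_assoc, ← h, ← smul_eq_mul]
    refine card_nsmul_le_sum _ _ _ fun x hx => ?_
    have hx' : x ∉ V := fun h' => disjoint_left.1 hd h' hx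
    rw [erase_union_distrib, erase_eq_of_notMem hx']
    exact ih _ (by rw [card_erase_of_mem hx, h]; rfl) (hd.mono_right (erase_subset _ _))

end

theorem miss_five (n : ℕ) (w : List (Fin n)) : miss univ w + N w = n.factorial := by
  have hi : Function.Injective fun π : Equiv.Perm (Fin n) => List.ofFn π := fun π π' h =>
    Equiv.ext (congrFun (List.ofFn_injective h))
  have h1 : (univ : Finset (Fin n)).toList.permutations.toFinset =
      univ.image fun π : Equiv.Perm (Fin n) => List.ofFn π := by
    refine (eq_of_subset_of_card_le (fun l hl => ?_) (le_of_eq ?_)).symm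
    · obtain ⟨π, -, rfl⟩ := mem_image.1 hl
      refine miss_mem.2 ⟨List.nodup_ofFn.2 π.injective, eq_univ_of_forall fun a => ?_⟩
      rw [List.mem_toFinset, List.mem_ofFn]
      exact π.surjective a
    · rw [miss_card, card_image_of_injective _ hi, card_univ, card_univ, Fintype.card_perm]
  unfold miss N
  rw [h1, filter_image, card_image_of_injective _ hi, add_comm, card_filter_add_card_filter_not,
    card_univ, Fintype.card_perm, Fintype.card_fin]

theorem missS : S_Miss := by
  refine ⟨fun α _ => miss_one, fun α _ V hV => ?_, fun α _ V v => ?_,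
    fun α _ V H v h => miss_four V v _ H rfl h, miss_five⟩
  · rw [miss, filter_true_of_mem, miss_card]
    intro l hl h
    rw [List.sublist_nil.1 h] at hl
    exact hV.ne_empty (miss_mem.1 hl).2.symm
  · refine card_le_card fun l hl => ?_
    obtain ⟨h1, h2⟩ := mem_filter.1 hl
    refine mem_filter.2 ⟨h1, fun h => h2 ?_⟩
    have h3 := h.filter fun x => decide (x ∈ V)
    rwa [List.filter_eq_self.2] at h3
    intro a ha
    rw [decide_eq_true_eq, ← (miss_mem.1 h1).2]
    exact List.mem_toFinset.2 ha

end Pool.Agent.P.MP_02a1b3_co.As
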