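import Pool.Agent.P.MP_02a1b3_co.As.Defs

set_option autoImplicit false

open Finset

namespace Pool.Agent.P.MP_02a1b3_co.As

theorem num_sum (T : ℕ) : ∑ s ∈ range (T + 1), Real.log ((s : ℝ) + 1) ≤
    ((T : ℝ) + 2) * Real.log ((T : ℝ) + 1) - T := by
  induction T with
  | zero => simp
  | succ T ih =>
    rw [sum_range_succ]
    push_cast
    have h0 : (0 : ℝ) < (T : ℝ) + 1 := by positivity
    have h1 : (0 : ℝ) < (T : ℝ) + 1 + 1 := by positivity
    have h2 := Real.log_le_sub_one_of_pos (div_pos h0 h1)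
    rw [Real.log_div h0.ne' h1.ne'] at h2
    have h3 := mul_le_mul_of_nonneg_left h2 h1.le
    have h4 : ((T : ℝ) + 1 + 1) * (((T : ℝ) + 1) / ((T : ℝ) + 1 + 1) - 1) = -1 := by
      field_simp
      ring
    rw [h4] at h3
    nlinarith

theorem num_big {δ : ℝ} (hδ : 0 < δ) : ∃ T : ℕ, Real.log ((T : ℝ) + 1) + 1 ≤ δ * ((T : ℝ) + 1) := by
  obtain ⟨T, hT⟩ := exists_nat_ge ((2 / δ) ^ 2)
  refine ⟨T, ?_⟩
  have h0 : (0 : ℝ) < (T : ℝ) + 1 := by positivity
  set r := √((T : ℝ) + 1) with hr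
  have hr0 : 0 < r := Real.sqrt_pos.2 h0
  have hr2 : r ^ 2 = (T : ℝ) + 1 := Real.sq_sqrt h0.le
  have h1 : 2 / δ ≤ r := by
    rw [hr]
    exact Real.le_sqrt_of_sq_le (by linarith)
  have h2 : 2 ≤ δ * r := by
    rw [div_le_iff₀ hδ] at h1
    linarith
  have h3 := Real.log_le_sub_one_of_pos hr0
  rw [← hr2, Real.log_pow]
  push_cast
  nlinarith

theorem num : S_Num := by
  refine ⟨fun δ hδ => ?_, fun m j t ht => ?_, fun n => ?_⟩
  · obtain ⟨T, hT⟩ := num_big hδ
    refine ⟨T + 1, T.succ_pos, ?_⟩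
    have h0 : (0 : ℝ) < (T : ℝ) + 1 := by positivity
    have h1 : ∑ s ∈ range (T + 1), Real.log (((s : ℝ) + 1) / ((T + 1 : ℕ) : ℝ)) =
        ∑ s ∈ range (T + 1), Real.log ((s : ℝ) + 1) - ((T : ℝ) + 1) * Real.log ((T : ℝ) + 1) := by
      rw [sum_congr rfl fun (s : ℕ) _ => Real.log_div (x := (s : ℝ) + 1) (y := ((T + 1 : ℕ) : ℝ))
        (by positivity) (by positivity), sum_sub_distrib, sum_const, card_range, nsmul_eq_mul]
      push_cast
      rfl
    rw [h1]
    push_cast
    nlinarith [num_sum T]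
  · have h1 : (m.choose j : ℝ) * t ^ j ≤ (t + 1) ^ m := by
      rcases le_or_gt j m with h | h
      · rw [add_pow]
        have := single_le_sum (f := fun k => t ^ k * 1 ^ (m - k) * (m.choose k : ℝ))
          (s := range (m + 1)) (fun k _ => by positivity) (mem_range.2 (Nat.lt_succ_of_le h))
        simpa [mul_comm] using this
      · rw [Nat.choose_eq_zero_of_lt h]
        simp only [Nat.cast_zero, zero_mul]
        positivity
    have h2 : (t + 1) ^ m ≤ Real.exp (t * m) := by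
      rw [mul_comm, Real.exp_nat_mul]
      exact pow_le_pow_left₀ (by positivity) (Real.add_one_le_exp t) m
    rw [Real.exp_sub, Real.exp_nat_mul (Real.log t), Real.exp_log ht, le_div_iff₀ (by positivity)]
    exact h1.trans h2
  · rcases n.eq_zero_or_pos with rfl | hn
    · simp
    have h0 : (0 : ℝ) < n := by exact_mod_cast hn
    have h1 := Real.pow_div_factorial_le_exp (n : ℝ) h0.le n
    have hf : (0 : ℝ) < n.factorial := by exact_mod_cast n.factorial_pos
    rw [mul_sub, mul_one, Real.exp_sub, Real.exp_nat_mul, Real.exp_log h0,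
      div_le_iff₀ (Real.exp_pos _)]
    rw [div_le_iff₀ hf] at h1
    linarith

end Pool.Agent.P.MP_02a1b3_co.As
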