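import Pool.Agent.P.MP_02a1b3_co.As.Defs

set_option autoImplicit false

open Finset

namespace Pool.Agent.P.MP_02a1b3_co.As

theorem small_step {n : ℕ} (hn : 0 < n) (L : ℕ) :
    UU n (L + 1) * (L / n) = UU n L * (L / n + 1) := by
  have hr : L % n < n := Nat.mod_lt _ hn
  have hL : L = n * (L / n) + L % n := (Nat.div_add_mod L n).symm
  unfold UU
  generalize L / n = q at *
  generalize L % n = r at *
  rcases Nat.lt_or_ge (r + 1) n with h | h
  · have h1 : (L + 1) / n = q := by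
      rw [hL, add_assoc, Nat.mul_add_div hn, Nat.div_eq_of_lt h, add_zero]
    have h2 : (L + 1) % n = r + 1 := by
      rw [hL, add_assoc, Nat.mul_add_mod, Nat.mod_eq_of_lt h]
    obtain ⟨k, hk⟩ : ∃ k, n - r = k + 1 := ⟨n - r - 1, by omega⟩
    have hk' : n - (r + 1) = k := by omega
    rw [h1, h2, hk, hk']
    ring
  · have hn' : n = r + 1 := by omega
    have h0 : L + 1 = n * (q + 1) := by rw [hL, mul_add, mul_one]; omega
    have h1 : (L + 1) / n = q + 1 := by rw [h0, Nat.mul_div_cancel_left _ hn]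
    have h2 : (L + 1) % n = 0 := by rw [h0, Nat.mul_mod_right]
    have hk : n - r = 1 := by omega
    rw [h1, h2, hk, Nat.sub_zero, hn']
    ring

theorem small_zero {n L : ℕ} (h : L < n) : UU n L = 0 := by
  unfold UU
  rw [Nat.div_eq_of_lt h, Nat.mod_eq_of_lt h, zero_pow (by omega), mul_zero]

theorem small_grow {n L : ℕ} (hn : 0 < n) (hL : n ≤ L) {Q : ℝ} (d : ℕ)
    (hQ : ((L + d : ℕ) : ℝ) / n ≤ Q) : (UU n L : ℝ) * (1 + 1 / Q) ^ d ≤ UU n (L + d) := by
  have hn' : (0 : ℝ) < n := by exact_mod_cast hn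
  induction d with
  | zero => simp
  | succ d ih =>
    have hQ' : ((L + d : ℕ) : ℝ) / n ≤ Q := by
      refine le_trans (div_le_div_of_nonneg_right ?_ hn'.le) hQ
      exact_mod_cast (by omega : L + d ≤ L + (d + 1))
    have hq1 : 1 ≤ (L + d) / n := (Nat.le_div_iff_mul_le hn).2 (by omega)
    have hq : (0 : ℝ) < ((L + d) / n : ℕ) := by exact_mod_cast hq1
    have hqQ : (((L + d) / n : ℕ) : ℝ) ≤ Q := Nat.cast_div_le.trans hQ'
    have hs : (UU n (L + d + 1) : ℝ) * ((L + d) / n : ℕ)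
        = UU n (L + d) * ((((L + d) / n : ℕ) : ℝ) + 1) := by exact_mod_cast small_step hn (L + d)
    have h1 : (UU n (L + d + 1) : ℝ) = UU n (L + d) * (1 + 1 / (((L + d) / n : ℕ) : ℝ)) := by
      field_simp
      linarith
    have h2 : 1 + 1 / Q ≤ 1 + 1 / (((L + d) / n : ℕ) : ℝ) := by
      have := one_div_le_one_div_of_le hq hqQ
      linarith
    have h3 : 0 ≤ 1 + 1 / Q := by
      have := hq.trans_le hqQ
      positivity
    rw [← add_assoc, h1, pow_succ, ← mul_assoc]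
    exact mul_le_mul (ih hQ') h2 h3 (Nat.cast_nonneg _)

theorem small_half (h1 : S_Tail) {n L s : ℕ} [NeZero n] {σ : ℝ} (hσ : 0 < σ) (hs : σ * n ≤ s)
    (hnL : n ≤ L) (hL : (L : ℝ) ≤ 2 * (σ / (4 * (σ + 1))) * n ^ 2) :
    (UU n L : ℝ) ≤ 2 * (s + n).choose n * N (per n L) := by
  have hn : 0 < n := Nat.pos_of_ne_zero (NeZero.ne n)
  have hn' : (0 : ℝ) < n := by exact_mod_cast hn
  have hs0 : (0 : ℝ) < s := lt_of_lt_of_le (by positivity) hs
  have h : (s : ℝ) * UU n L ≤ s * (s + n).choose n * N (per n L) + (s + n) * UU n (L - n) := by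
    exact_mod_cast h1 n L s
  have key : 2 * (((s : ℝ) + n) * UU n (L - n)) ≤ s * UU n L := by
    rcases Nat.lt_or_ge (L - n) n with h2 | h2
    · rw [small_zero h2]
      simp only [Nat.cast_zero, mul_zero]
      positivity
    have h3 : L - n + n = L := Nat.sub_add_cancel hnL
    have h4 := small_grow hn h2 (Q := σ * n / (2 * (σ + 1))) n (by
      rw [h3, div_le_iff₀ hn']
      refine hL.trans (le_of_eq ?_)
      field_simp
      ring)
    rw [h3] at h4
    have h5 : 1 + (n : ℝ) * (1 / (σ * n / (2 * (σ + 1)))) ≤ (1 + 1 / (σ * n / (2 * (σ + 1)))) ^ n :=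
      one_add_mul_le_pow (le_trans (by norm_num) (by positivity :
        (0 : ℝ) ≤ 1 / (σ * n / (2 * (σ + 1))))) n
    have h6 : (n : ℝ) * (1 / (σ * n / (2 * (σ + 1)))) = 2 + 2 / σ := by
      field_simp
    have h7 : 2 * ((s : ℝ) + n) ≤ s * (2 + 2 / σ) := by
      have : (n : ℝ) ≤ s / σ := by rw [le_div_iff₀ hσ]; linarith
      have h8 : (s : ℝ) * (2 + 2 / σ) = 2 * (s + s / σ) := by ring
      linarith
    have h9 : (0 : ℝ) ≤ UU n (L - n) := Nat.cast_nonneg _
    have h10 : (UU n (L - n) : ℝ) * (2 + 2 / σ) ≤ UU n L :=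
      le_trans (mul_le_mul_of_nonneg_left (by linarith) h9) h4
    calc 2 * (((s : ℝ) + n) * UU n (L - n)) = (2 * ((s : ℝ) + n)) * UU n (L - n) := by ring
      _ ≤ (s * (2 + 2 / σ)) * UU n (L - n) := mul_le_mul_of_nonneg_right h7 h9
      _ = s * (UU n (L - n) * (2 + 2 / σ)) := by ring
      _ ≤ s * UU n L := mul_le_mul_of_nonneg_left h10 hs0.le
  have h11 : (s : ℝ) * UU n L ≤ s * (2 * (s + n).choose n * N (per n L)) := by linarith
  exact le_of_mul_le_mul_left h11 hs0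

theorem small_exp {Q : ℝ} (hQ : 0 < Q) : Real.exp (1 / (Q + 1)) ≤ 1 + 1 / Q := by
  have h1 := Real.add_one_le_exp (-(1 / (Q + 1)))
  have h2 : -(1 / (Q + 1)) + 1 = Q / (Q + 1) := by field_simp; ring
  have h3 : 1 + 1 / Q = (Q / (Q + 1))⁻¹ := by field_simp
  rw [h2, Real.exp_neg] at h1
  rw [h3]
  exact (le_inv_comm₀ (by positivity) (Real.exp_pos _)).1 h1

theorem small (h1 : S_Tail) (h2 : S_Num) : S_Small := by
  intro ε hε
  obtain ⟨e, he, he1, heε⟩ : ∃ e : ℝ, 0 < e ∧ e ≤ 1 ∧ e ≤ ε :=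
    ⟨min ε 1, lt_min hε one_pos, min_le_right _ _, min_le_left _ _⟩
  have ht : 0 < e / 24 := by positivity
  have hl : 0 < -Real.log (e / 24) := neg_pos.2 (Real.log_neg ht (by linarith))
  obtain ⟨l, hl'⟩ : ∃ l, l = -Real.log (e / 24) := ⟨_, rfl⟩
  rw [← hl'] at hl
  obtain ⟨σ, hσ, hσ1, hσl⟩ : ∃ σ : ℝ, 0 < σ ∧ σ ≤ 1 ∧ σ * l ≤ e / 24 :=
    ⟨min 1 (e / 24 / l), lt_min one_pos (by positivity), min_le_left _ _,
      (le_div_iff₀ hl).1 (min_le_right _ _)⟩
  refine ⟨σ / (4 * (σ + 1)), by positivity, ⌈5 * (2 + l) / e⌉₊, fun n _ hn0 L L' hnL hL hL' hL2 => ?_⟩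
  have hn : 0 < n := Nat.pos_of_ne_zero (NeZero.ne n)
  have hn' : (0 : ℝ) < n := by exact_mod_cast hn
  have hen : 5 * (2 + l) ≤ n * e := (div_le_iff₀ he).1 (Nat.ceil_le.1 hn0)
  have hnL' : (n : ℝ) ≤ L := by exact_mod_cast hnL
  have hL0 : (0 : ℝ) < L := hn'.trans_le hnL'
  have hL2' : (L' : ℝ) ≤ 2 * L := by exact_mod_cast hL2
  have hd : e * L - 1 ≤ L' - L := by nlinarith
  have hLL : L ≤ L' := by
    have : (L : ℝ) ≤ L' := by nlinarith
    exact_mod_cast this
  obtain ⟨d, rfl⟩ := Nat.exists_eq_add_of_le hLL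
  have hd' : e * L - 1 ≤ d := by push_cast at hd; linarith
  have hA := small_half h1 (n := n) (L := L + d) (s := ⌈σ * n⌉₊) hσ (Nat.le_ceil _) (by omega)
    (by linarith)
  have hs : (⌈σ * n⌉₊ : ℝ) ≤ σ * n + 1 := (Nat.ceil_lt_add_one (by positivity)).le
  generalize ⌈σ * n⌉₊ = s at hA hs
  have hB := small_grow hn hnL (Q := 2 * L / n) d (div_le_div_of_nonneg_right hL2' hn'.le)
  have hC : ((s + n).choose n : ℝ) ≤ Real.exp (n * e / 8 + 1 / 24 + l) := by
    rw [Nat.choose_symm_add.symm]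
    refine (h2.2.1 (s + n) s (e / 24) ht).trans (Real.exp_le_exp.2 ?_)
    have h3 : (s : ℝ) * l ≤ (σ * n + 1) * l := mul_le_mul_of_nonneg_right hs hl.le
    have h4 : σ * l * n ≤ e / 24 * n := mul_le_mul_of_nonneg_right hσl hn'.le
    have h5 : σ * n ≤ n := by nlinarith
    have h6 : e / 24 * (s + n) ≤ e / 24 * (2 * n + 1) :=
      mul_le_mul_of_nonneg_left (by linarith) ht.le
    have h7 : Real.log (e / 24) = -l := by rw [hl', neg_neg]
    push_cast
    rw [h7]
    nlinarith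
  have hQ : (0 : ℝ) < 2 * L / n := by positivity
  have hD : Real.exp (n * e / 3 - 1 / 3) ≤ (1 + 1 / (2 * L / n : ℝ)) ^ d := by
    refine le_trans ?_ (pow_le_pow_left₀ (Real.exp_pos _).le (small_exp hQ) d)
    rw [← Real.exp_nat_mul]
    refine Real.exp_le_exp.2 ?_
    have h3 : (n : ℝ) / (3 * L) ≤ 1 / (2 * L / n + 1) := by
      rw [div_le_div_iff₀ (by positivity) (by positivity)]
      have : (n : ℝ) * (2 * L / n + 1) = 2 * L + n := by field_simp
      linarith
    have h4 : (e * L - 1) * (n / (3 * L)) ≤ d * (n / (3 * L)) :=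
      mul_le_mul_of_nonneg_right hd' (by positivity)
    have h5 : (e * L - 1) * (n / (3 * L)) = n * e / 3 - n / (3 * L) := by field_simp
    have h6 : (n : ℝ) / (3 * L) ≤ 1 / 3 := by
      rw [div_le_div_iff₀ (by positivity) (by positivity)]
      linarith
    have h7 : (d : ℝ) * (n / (3 * L)) ≤ d * (1 / (2 * L / n + 1)) :=
      mul_le_mul_of_nonneg_left h3 (Nat.cast_nonneg _)
    linarith
  have hE : 2 * ((s + n).choose n : ℝ) ≤ Real.exp (n * e / 3 - 1 / 3) := by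
    have h3 : (2 : ℝ) ≤ Real.exp 1 := by have := Real.add_one_le_exp 1; linarith
    calc 2 * ((s + n).choose n : ℝ) ≤ Real.exp 1 * Real.exp (n * e / 8 + 1 / 24 + l) :=
          mul_le_mul h3 hC (Nat.cast_nonneg _) (Real.exp_pos _).le
      _ = Real.exp (1 + (n * e / 8 + 1 / 24 + l)) := (Real.exp_add _ _).symm
      _ ≤ _ := Real.exp_le_exp.2 (by linarith)
  have hpos : (0 : ℝ) < 2 * ((s + n).choose n : ℝ) := by
    have : 0 < (s + n).choose n := Nat.choose_pos (by omega)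
    positivity
  have hF : 2 * ((s + n).choose n : ℝ) * UU n L ≤ 2 * (s + n).choose n * N (per n (L + d)) := by
    refine le_trans ?_ (hB.trans hA)
    rw [mul_comm]
    exact mul_le_mul_of_nonneg_left (hE.trans hD) (Nat.cast_nonneg _)
  exact_mod_cast le_of_mul_le_mul_left hF hpos

end Pool.Agent.P.MP_02a1b3_co.As
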