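import Pool.Agent.P.MP_02a1b3_co.As.Defs

set_option autoImplicit false

open Finset

namespace Pool.Agent.P.MP_02a1b3_co.As

theorem surv_coord {α : Type} [Fintype α] [DecidableEq α] {k s : ℕ} (i : Fin k)
    (S : (Fin k → α) → Finset α) (hS : ∀ B B', (∀ i', i' ≠ i → B i' = B' i') → S B = S B')
    (hs : ∀ B, (S B).card ≤ s) :
    (univ.filter fun B => B i ∈ S B).card ≤ s * Fintype.card α ^ (k - 1) := by
  refine (card_le_mul_card_image (f := fun (B : Fin k → α) (i' : {i' // i' ≠ i}) => B i') _ s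
    fun g hg => ?_).trans (Nat.mul_le_mul_left _ ?_)
  · obtain ⟨B0, -, rfl⟩ := mem_image.1 hg
    refine le_trans (card_le_card_of_injOn (fun B => B i) (fun B hB => ?_) fun B hB B' hB' e => ?_)
      (hs B0)
    · obtain ⟨h1, h2⟩ := mem_filter.1 (mem_coe.1 hB)
      rw [← hS B B0 fun i' hi => congrFun h2 ⟨i', hi⟩]
      exact (mem_filter.1 h1).2
    · funext i'
      by_cases hi : i' = i
      · rw [hi]; exact e
      · exact (congrFun (mem_filter.1 (mem_coe.1 hB)).2 ⟨i', hi⟩).trans
          (congrFun (mem_filter.1 (mem_coe.1 hB')).2 ⟨i', hi⟩).symm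
  · refine (card_le_univ _).trans ?_
    simp

theorem surv_cnt {ι : Type} [Fintype ι] [DecidableEq ι] {T : ℕ} (j : ι) (t : Fin T)
    (S : Finset ι) (hS : S ⊆ univ.erase j) (C : Finset (ι → Fin T))
    (hC : ∀ c ∈ C, c j = t ∧ ∀ j' ∈ S, t ≤ c j') :
    (C.card : ℝ) ≤ (T : ℝ) ^ (Fintype.card ι - 1) * (((T : ℝ) - t.val) / T) ^ S.card := by
  have hT : (0 : ℝ) < T := by exact_mod_cast t.pos
  have h1 : C ⊆ Fintype.piFinset fun j' => if j' = j then {t} else
      if j' ∈ S then Ici t else univ := fun c hc => Fintype.mem_piFinset.2 fun j' => by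
    split_ifs with e1 e2
    · rw [e1]; exact mem_singleton.2 (hC c hc).1
    · exact mem_Ici.2 ((hC c hc).2 j' e2)
    · exact mem_univ _
  refine le_trans (Nat.cast_le.2 (card_le_card h1)) (le_of_eq ?_)
  rw [Fintype.card_piFinset, Nat.cast_prod, ← mul_prod_erase univ _ (mem_univ j), if_pos rfl,
    card_singleton, Nat.cast_one, one_mul,
    prod_congr rfl (g := fun j' => (T : ℝ) * if j' ∈ S then ((T : ℝ) - t.val) / T else 1),
    prod_mul_distrib, prod_const, card_erase_of_mem (mem_univ j), card_univ, prod_ite_mem,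
    inter_eq_right.2 hS, prod_const]
  intro j' hj'
  rw [if_neg (ne_of_mem_erase hj')]
  split_ifs
  · rw [Fin.card_Ici, Nat.cast_sub t.2.le]
    field_simp
  · simp

theorem surv_bad {α ι : Type} [Fintype α] [DecidableEq α] [Fintype ι] [DecidableEq ι] {k : ℕ}
    (x : ι → Fin k → α) (j : ι) (hx : Function.Injective (fun q : ι × Fin k => x q.1 q.2))
    (hc : Fintype.card α ≤ Fintype.card ι * k + k) :
    ∃ D : Finset (Fin k → α), D.card ≤ 3 * k ^ 3 * Fintype.card α ^ (k - 1) ∧ ∀ B ∉ D,
      ∃ S ⊆ univ.erase j, S.card = k ∧ ∀ j' ∈ S, ∃ i i', B i = x j' i' := by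
  classical
  set Z := (((univ.erase j) ×ˢ univ).image fun q : ι × Fin k => x q.1 q.2)ᶜ with hZ
  have hZc : Z.card ≤ 2 * k := by
    rw [hZ, card_compl, card_image_of_injective _ hx, card_product,
      card_erase_of_mem (mem_univ j), card_univ, card_univ, Fintype.card_fin]
    obtain ⟨m, hm⟩ : ∃ m, Fintype.card ι = m + 1 :=
      ⟨_, (Nat.succ_pred_eq_of_pos (Fintype.card_pos_iff.2 ⟨j⟩)).symm⟩
    rw [hm] at hc ⊢
    rw [Nat.add_sub_cancel]
    rw [add_mul] at hc
    omega
  set P : Fin k → (Fin k → α) → Finset α := fun i' B =>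
    univ.filter fun a => ∃ j' u u', B i' = x j' u ∧ a = x j' u' with hP
  have hPc : ∀ i' B, (P i' B).card ≤ k := fun i' B => by
    rcases (P i' B).eq_empty_or_nonempty with e | ⟨a, ha⟩
    · rw [e]; exact Nat.zero_le _
    · obtain ⟨j', u, -, h1, -⟩ := (mem_filter.1 ha).2
      refine le_trans (card_le_card (t := univ.image (x j')) fun b hb => ?_)
        (card_image_le.trans (by simp))
      obtain ⟨j'', v, v', h2, h3⟩ := (mem_filter.1 hb).2
      have := congrArg Prod.fst (hx (a₁ := (j', u)) (a₂ := (j'', v)) (h1.symm.trans h2))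
      exact mem_image.2 ⟨v', mem_univ _, by rw [h3]; exact congrArg (x · v') this⟩
  refine ⟨(univ.biUnion fun i => univ.filter fun B => B i ∈ Z) ∪
    univ.biUnion fun i => (univ.erase i).biUnion fun i' => univ.filter fun B => B i ∈ P i' B,
    ?_, fun B hB => ?_⟩
  · have h1 := card_biUnion_le_card_mul univ (fun i => univ.filter fun B : Fin k → α => B i ∈ Z)
      _ fun i _ => surv_coord i (fun _ => Z) (fun _ _ _ => rfl) fun _ => hZc
    have h2 := card_biUnion_le_card_mul univ (fun i => (univ.erase i).biUnion fun i' =>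
      univ.filter fun B : Fin k → α => B i ∈ P i' B) (k * (k * Fintype.card α ^ (k - 1)))
      fun i _ => (card_biUnion_le_card_mul _ _ _ fun i' hi' => surv_coord i (P i')
        (fun B B' h => by simp only [hP, h i' (ne_of_mem_erase hi')]) (hPc i')).trans
        (Nat.mul_le_mul_right _ (card_erase_le.trans (by simp)))
    rw [card_univ, Fintype.card_fin] at h1 h2
    refine (card_union_le _ _).trans ((add_le_add h1 h2).trans ?_)
    have h3 : k * k ≤ k * k * k := by
      rcases Nat.eq_zero_or_pos k with e | e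
      · simp [e]
      · exact Nat.le_mul_of_pos_right _ e
    have h4 := Nat.mul_le_mul_right (Fintype.card α ^ (k - 1)) h3
    calc _ = 2 * (k * k * Fintype.card α ^ (k - 1)) + k * k * k * Fintype.card α ^ (k - 1) := by
          ring
      _ ≤ 2 * (k * k * k * Fintype.card α ^ (k - 1)) + k * k * k * Fintype.card α ^ (k - 1) := by
          omega
      _ = _ := by ring
  · have h1 : ∀ i, ∃ j' u, j' ≠ j ∧ B i = x j' u := fun i => by
      by_contra h
      refine hB (mem_union_left _ (mem_biUnion.2 ⟨i, mem_univ _, mem_filter.2 ⟨mem_univ _, ?_⟩⟩))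
      rw [hZ, mem_compl]
      intro h'
      obtain ⟨q, hq, e⟩ := mem_image.1 h'
      exact h ⟨q.1, q.2, ne_of_mem_erase (mem_product.1 hq).1, e.symm⟩
    choose o u ho hu using h1
    have h2 : Function.Injective o := fun i i' e => by
      by_contra h
      exact hB (mem_union_right _ (mem_biUnion.2 ⟨i, mem_univ _, mem_biUnion.2
        ⟨i', mem_erase.2 ⟨Ne.symm h, mem_univ _⟩, mem_filter.2 ⟨mem_univ _, mem_filter.2
          ⟨mem_univ _, o i', u i', u i, hu i', e ▸ hu i⟩⟩⟩⟩))
    refine ⟨univ.image o, fun j' hj' => ?_, by simp [card_image_of_injective _ h2],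
      fun j' hj' => ?_⟩
    · obtain ⟨i, -, rfl⟩ := mem_image.1 hj'
      exact mem_erase.2 ⟨ho i, mem_univ _⟩
    · obtain ⟨i, -, rfl⟩ := mem_image.1 hj'
      exact ⟨i, u i, hu i⟩

theorem surv : S_Surv := by
  intro α ι _ _ _ _ k T x j t F hx hc
  obtain ⟨D, hD, hg⟩ := surv_bad x j hx hc
  have hr : 0 ≤ ((T : ℝ) - t.val) / T :=
    div_nonneg (sub_nonneg.2 (Nat.cast_le.2 t.2.le)) (Nat.cast_nonneg _)
  have h1 : ∀ B : Fin k → α, (((univ.filter fun c : ι → Fin T => c j = t).filter
      fun c => ∀ j', c j' < c j → ∀ i i', B i ≠ x j' i').card : ℝ) ≤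
      (T : ℝ) ^ (Fintype.card ι - 1) *
        ((((T : ℝ) - t.val) / T) ^ k + if B ∈ D then 1 else 0) := fun B => by
    split_ifs with hB
    · refine (surv_cnt j t ∅ (empty_subset _) _ fun c hc =>
        ⟨(mem_filter.1 (mem_filter.1 hc).1).2, by simp⟩).trans ?_
      rw [card_empty, pow_zero]
      exact mul_le_mul_of_nonneg_left (le_add_of_nonneg_left (pow_nonneg hr _)) (by positivity)
    · obtain ⟨S, h1, h2, h3⟩ := hg B hB
      rw [add_zero, ← congrArg (fun m => (((T : ℝ) - t.val) / T) ^ m) h2]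
      refine surv_cnt j t S h1 _ fun c hc => ?_
      obtain ⟨h4, h5⟩ := mem_filter.1 hc
      have h6 := (mem_filter.1 h4).2
      refine ⟨h6, fun j' hj' => not_lt.1 fun h => ?_⟩
      obtain ⟨i, i', e⟩ := h3 j' hj'
      exact h5 j' (h6 ▸ h) i i' e
  rw [sum_congr rfl fun c _ => (congrArg Nat.cast (card_filter _ F)).trans (Nat.cast_sum _ _),
    sum_comm]
  refine (sum_le_sum fun B _ => le_trans (le_of_eq ?_) (h1 B)).trans ?_
  · exact ((congrArg Nat.cast (card_filter _ _)).trans (Nat.cast_sum _ _)).symm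
  · rw [← mul_sum, sum_add_distrib, sum_const, nsmul_eq_mul, sum_ite_mem, sum_const, nsmul_eq_mul,
      mul_one]
    refine mul_le_mul_of_nonneg_left (add_le_add_right ?_ _) (by positivity)
    exact_mod_cast (card_le_card inter_subset_right).trans hD

end Pool.Agent.P.MP_02a1b3_co.As
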