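import Pool.Agent.P.MP_02a1b3_co.As.Defs

set_option autoImplicit false

open Finset

namespace Pool.Agent.P.MP_02a1b3_co.As

theorem sym_cost {n : ℕ} [NeZero n] (q : ℕ) (π : Equiv.Perm (Fin n)) :
    cost π < q * n ↔ dsc π < q := by
  have h := (π ⟨n - 1, Nat.sub_one_lt (NeZero.ne n)⟩).isLt
  unfold cost
  constructor
  · intro h1
    by_contra h2
    have := Nat.mul_le_mul_right n (not_lt.1 h2)
    rw [mul_comm n] at h1
    omega
  · intro h1
    have := Nat.mul_le_mul_right n (Nat.succ_le_of_lt h1)
    rw [Nat.succ_mul] at this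
    rw [mul_comm n]
    omega

theorem sym_dsc {n : ℕ} [NeZero n] (π : Equiv.Perm (Fin n)) :
    dsc π + dsc (π.trans Fin.revPerm) + 1 = n := by
  have hn : n - 1 < n := Nat.sub_one_lt (NeZero.ne n)
  have h1 : (univ.filter fun i : Fin n => ∃ h : i.val + 1 < n, π ⟨i.val + 1, h⟩ < π i) ∪
      (univ.filter fun i : Fin n => ∃ h : i.val + 1 < n,
        (π.trans Fin.revPerm) ⟨i.val + 1, h⟩ < (π.trans Fin.revPerm) i)
      = univ.erase ⟨n - 1, hn⟩ := by
    ext i
    have hi := i.isLt
    simp only [mem_union, mem_filter, mem_univ, true_and, Equiv.trans_apply, Fin.revPerm_apply,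
      Fin.rev_lt_rev, mem_erase, and_true, ne_eq, Fin.ext_iff]
    constructor
    · rintro (⟨h, _⟩ | ⟨h, _⟩) <;> omega
    · intro h
      have h2 : i.val + 1 < n := by omega
      have h3 : π ⟨i.val + 1, h2⟩ ≠ π i := fun e => by
        have := congrArg Fin.val (π.injective e)
        simp at this
      exact (lt_or_gt_of_ne h3).imp (fun e => ⟨h2, e⟩) fun e => ⟨h2, e⟩
  have h2 := congrArg card h1
  rw [card_union_of_disjoint, card_erase_of_mem (mem_univ _), card_univ, Fintype.card_fin] at h2
  · unfold dsc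
    omega
  · rw [disjoint_filter]
    rintro i _ ⟨h, a⟩ ⟨_, b⟩
    simp only [Equiv.trans_apply, Fin.revPerm_apply, Fin.rev_lt_rev] at b
    exact lt_asymm a b

theorem sym (h : S_Cost) : S_Sym := by
  intro n q _ hq
  have h1 : N (per n ((n - q) * n)) = (univ.filter fun π : Equiv.Perm (Fin n) =>
      ¬ (List.ofFn π).Sublist (per n (q * n))).card := by
    unfold N
    symm
    refine card_bijective (fun π => π.trans Fin.revPerm)
      (Equiv.mulLeft (Fin.revPerm : Equiv.Perm (Fin n))).bijective fun π => ?_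
    simp only [mem_filter, mem_univ, true_and]
    rw [h, h, sym_cost, sym_cost]
    have := sym_dsc π
    omega
  rw [h1]
  unfold N
  rw [card_filter_add_card_filter_not, card_univ, Fintype.card_perm, Fintype.card_fin]

end Pool.Agent.P.MP_02a1b3_co.As
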