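import Pool.Agent.P.MP_02a1b3_co.As.Defs

namespace Pool.Agent.P.MP_02a1b3_co.As

open Finset

theorem tail_choose {s t k : ℕ} (h : s ≤ t) :
    s * (t + 1 + k).choose k ≤ (s + (k + 1)) * (t + k).choose k := by
  have h1 := Nat.choose_mul_succ_eq (t + k) k
  rw [show t + k + 1 - k = t + 1 by omega, show t + k + 1 = t + 1 + k by omega] at h1
  refine Nat.le_of_mul_le_mul_right ?_ (Nat.succ_pos t)
  have h2 : s * (t + 1 + k) ≤ (s + (k + 1)) * (t + 1) := by nlinarith
  calc s * (t + 1 + k).choose k * (t + 1) = s * (t + 1 + k) * (t + k).choose k := by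
        rw [mul_assoc, ← h1]; ring
    _ ≤ (s + (k + 1)) * (t + 1) * (t + k).choose k := Nat.mul_le_mul_right _ h2
    _ = _ := by rw [Nat.succ_eq_add_one]; ring

theorem tail (h : S_Id) : S_Tail := by
  intro n L s _
  obtain ⟨k, rfl⟩ : ∃ k, n = k + 1 := Nat.exists_eq_succ_of_ne_zero (NeZero.ne n)
  rw [h (k + 1) L, h (k + 1) (L - (k + 1))]
  simp only [← add_assoc, Nat.add_sub_cancel]
  set a : ℕ → ℕ := fun t => N (per (k + 1) (L - t * (k + 1))) with ha
  have h0 : ∀ t, a t ≤ N (per (k + 1) L) := fun t => N_per_mono _ (Nat.sub_le _ _)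
  let g : ℕ → ℕ := fun t => if t < s + 1 then s * (t + k).choose k * N (per (k + 1) L) else 0
  let f : ℕ → ℕ := fun t => if t = 0 then 0 else (s + k + 1) * ((t - 1 + k).choose k * a t)
  have h1 : ∀ t, s * ((t + k).choose k * a t) ≤ g t + f t := by
    intro t
    by_cases e : t < s + 1
    · refine le_add_right ?_
      simp only [g, if_pos e]
      rw [mul_assoc]
      exact Nat.mul_le_mul_left _ (Nat.mul_le_mul_left _ (h0 t))
    · obtain ⟨u, rfl⟩ : ∃ u, t = u + 1 := ⟨t - 1, by omega⟩
      refine le_add_left ?_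
      simp only [f, if_neg (Nat.succ_ne_zero u), Nat.add_sub_cancel]
      rw [← mul_assoc, ← mul_assoc]
      exact Nat.mul_le_mul_right _ (tail_choose (by omega))
  have h2 : ∑ t ∈ range (L / (k + 1) + 1), g t ≤ s * (s + k + 1).choose (k + 1) * N (per (k + 1) L) := by
    rw [← Nat.sum_range_add_choose, mul_sum, sum_mul, ← sum_filter]
    exact sum_le_sum_of_subset fun t ht => mem_range.2 (mem_filter.1 ht).2
  have h3 : ∑ t ∈ range (L / (k + 1) + 1), f t ≤ (s + k + 1) *
      ∑ t ∈ range ((L - (k + 1)) / (k + 1) + 1),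
        (t + k).choose k * N (per (k + 1) (L - (k + 1) - t * (k + 1))) := by
    rw [sum_range_succ', mul_sum]
    simp only [f, if_neg (Nat.succ_ne_zero _), if_true, add_zero, Nat.add_sub_cancel]
    have e : ∀ t, a (t + 1) = N (per (k + 1) (L - (k + 1) - t * (k + 1))) := fun t => by
      simp only [ha]
      rw [show L - (t + 1) * (k + 1) = L - (k + 1) - t * (k + 1) by rw [add_mul, one_mul]; omega]
    simp only [e]
    refine sum_le_sum_of_subset (range_subset_range.2 ?_)
    have := Nat.sub_mul_div L (k + 1) 1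
    rw [mul_one] at this
    omega
  calc s * ∑ t ∈ range (L / (k + 1) + 1), (t + k).choose k * a t
      ≤ ∑ t ∈ range (L / (k + 1) + 1), (g t + f t) := by
        rw [mul_sum]
        exact sum_le_sum fun t _ => h1 t
    _ ≤ _ := by
        rw [sum_add_distrib]
        exact add_le_add h2 h3

end Pool.Agent.P.MP_02a1b3_co.As
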