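import Pool.Agent.P.MP_02a1b3_co.As.Defs

set_option autoImplicit false

open Finset

namespace Pool.Agent.P.MP_02a1b3_co.As

open Filter Topology

theorem up_cnt {α : Type} [DecidableEq α] (s : Finset α) (w : List α) :
    ∑ x ∈ s, (w.count x : ℝ) ≤ w.length := by
  induction w with
  | nil => simp
  | cons a w ih =>
    have : ∑ x ∈ s, (if a = x then (1 : ℝ) else 0) ≤ 1 := by
      rw [sum_ite_eq]
      split_ifs <;> norm_num
    simp only [List.count_cons, beq_iff_eq, Nat.cast_add, Nat.cast_ite, Nat.cast_one,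
      Nat.cast_zero, sum_add_distrib, List.length_cons]
    linarith

theorem up_rec (h2 : S_Miss) (α : Type) [DecidableEq α] (η : ℝ) :
    Rec fun (V : Finset α) (v : List α) => (miss V v : ℝ) / V.card.factorial + η := by
  intro V v f hV hf
  have h : ((∑ x ∈ V, miss (V.erase x) (f x) : ℕ) : ℝ) ≤ miss V v := by
    exact_mod_cast h2.1 α V v f hf
  obtain ⟨m, hm⟩ : ∃ m, V.card = m + 1 := ⟨V.card - 1, by have := hV.card_pos; omega⟩
  have hm0 : (0 : ℝ) < m.factorial := by exact_mod_cast m.factorial_pos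
  beta_reduce
  rw [sum_congr rfl (g := fun x => (miss (V.erase x) (f x) : ℝ) / m.factorial + η)
    fun x hx => by rw [card_erase_of_mem hx, hm, Nat.add_sub_cancel], sum_add_distrib,
    ← sum_div, sum_const, hm, Nat.factorial_succ, nsmul_eq_mul, mul_add]
  push_cast at h ⊢
  have : ((m : ℝ) + 1) * (miss V v / ((m + 1) * m.factorial)) = miss V v / m.factorial := by
    field_simp
  rw [this]
  gcongr

theorem up_xi {e d : ℝ} (he : 0 < e) (hd : 0 < d) :
    ∃ ξ : ℝ, 0 < ξ ∧ ξ ≤ e ∧ ξ - ξ * Real.log ξ ≤ d := by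
  have h : Tendsto (fun x : ℝ => x - x * Real.log x) (𝓝[>] 0) (𝓝 0) := by
    have := ((continuous_id'.fun_sub Real.continuous_mul_log).tendsto 0).mono_left
      (nhdsWithin_le_nhds (s := Set.Ioi 0))
    simpa using this
  obtain ⟨ξ, h1, h2⟩ := ((h.eventually (Iic_mem_nhds hd)).and (Ioc_mem_nhdsGT he)).exists
  exact ⟨ξ, h2.1, h2.2, h1⟩

/-- The induction applied to the letters that are not too frequent. -/
theorem up_core (h1 : S_Ind) (h2 : S_Miss) {e d C ξ : ℝ} (he : e ≤ 1) (hd : 0 < d) (hC : 0 < C)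
    (hξ : 0 < ξ) (hξe : ξ ≤ e / 9) : ∀ᶠ n : ℕ in atTop, ∀ β c : ℝ, 0 ≤ β → β ≤ 1 → 0 ≤ c →
      c ≤ C → (∀ t, 0 ≤ t → (β + e) * t - Real.log (E t) ≤ c) →
      ∀ (α : Type) [DecidableEq α] (U : Finset α) (w : List α), (w.length : ℝ) ≤ β * n ^ 2 →
        (1 - ξ) * n ≤ U.card → (∀ x ∈ U, (w.count x : ℝ) ≤ n / ξ) →
        Real.exp (-((c + d) * U.card)) ≤
          miss U w / U.card.factorial + Real.exp (-((C + 2) * n)) := by
  obtain ⟨A, hA⟩ : ∃ A, A = C + 2 := ⟨_, rfl⟩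
  have hA0 : 0 < A := by linarith
  obtain ⟨ρ, hρ⟩ : ∃ ρ, ρ = 1 / ξ ^ 2 := ⟨_, rfl⟩
  obtain ⟨Θ, hΘ⟩ : ∃ Θ, Θ = 2 * A * (1 / ξ + ξ) / ξ ^ 2 := ⟨_, rfl⟩
  obtain ⟨K, hK⟩ := exists_nat_ge (2 * Θ / d)
  obtain ⟨Z, hZ⟩ : ∃ Z, Z = Real.exp (C + d / 2 + Θ * ρ) := ⟨_, rfl⟩
  obtain ⟨σ, hσ⟩ : ∃ σ, σ = (1 - Real.exp (-(d / 4))) * Real.exp (-(Θ * K)) / 2 := ⟨_, rfl⟩
  have hσ0 : 0 < σ := by
    have := Real.exp_lt_one_iff.2 (show -(d / 4) < 0 by linarith)
    rw [hσ]
    exact half_pos (mul_pos (by linarith) (Real.exp_pos _))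
  obtain ⟨k, hk, hk0⟩ := (((FloorSemiring.tendsto_pow_div_factorial_atTop (Z * K)).eventually
    (Iic_mem_nhds hσ0)).and (eventually_gt_atTop 0)).exists
  obtain ⟨b, hb⟩ : ∃ b, b = K + 2 * k + k * ρ + 1 := ⟨_, rfl⟩
  have hn : Tendsto (fun n : ℕ => ξ * n) atTop atTop :=
    tendsto_natCast_atTop_atTop.const_mul_atTop hξ
  have hu : Tendsto (fun n : ℕ => (⌈ξ * n⌉₊ : ℝ)) atTop atTop :=
    tendsto_atTop_mono (fun n => Nat.le_ceil _) hn
  have hd8 : 0 < d / 8 := by positivity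
  filter_upwards [hu.eventually_ge_atTop (2 * k), hn.eventually_ge_atTop 1,
    (hu.const_div_atTop (k ^ 2 * Z)).eventually (Iic_mem_nhds hσ0),
    (hu.const_div_atTop (2 * k ^ 2 * ρ)).eventually (Iic_mem_nhds one_pos),
    (hu.const_div_atTop (Θ * (2 * k ^ 2 * ρ))).eventually (Iic_mem_nhds hd8),
    (tendsto_natCast_atTop_atTop.const_div_atTop (A / ξ ^ 2 * b ^ 2)).eventually
      (Iic_mem_nhds hd8), eventually_gt_atTop 0] with n e1 e2 e3 e4 e5 e6 e7
  intro β c hβ hβ1 hc hcC hE α _ U w hw hU hR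
  have hn0 : (0 : ℝ) < n := by exact_mod_cast e7
  have u1 : ξ * n ≤ ⌈ξ * n⌉₊ := Nat.le_ceil _
  have u2 : (⌈ξ * n⌉₊ : ℝ) < ξ * n + 1 := Nat.ceil_lt_add_one (by positivity)
  generalize ⌈ξ * n⌉₊ = u at *
  have hk1 : (1 : ℝ) ≤ k := by exact_mod_cast hk0
  have hξn : ξ * n ≤ n / 9 := by nlinarith
  have := h1 α _ (Real.exp (-(A * n))) c C d (β + e) (ξ * n) (A / (ξ ^ 2 * n)) (n / ξ) Θ ρ Z b
    (1 - Real.exp (-(d / 4))) u K k (up_rec h2 α _)
    (fun V v => le_add_of_nonneg_left (by positivity))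
    (fun V hV => by
      rw [h2.2.1 α V hV, div_self (by exact_mod_cast V.card.factorial_ne_zero)]
      exact le_add_of_nonneg_right (Real.exp_pos _).le)
    (fun V v => by
      have : (miss V (v.filter fun x => x ∈ V) : ℝ) ≤ miss V v := by
        exact_mod_cast h2.2.2.1 α V v
      gcongr)
    (le_of_eq (by congr 2; field_simp)) hc hcC hd (by linarith) (by positivity) (by positivity)
    (by positivity) hE (le_of_eq (by rw [hΘ]; field_simp)) hk0 (by exact_mod_cast e1)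
    (by
      calc (n : ℝ) / ξ = 1 / ξ ^ 2 * (ξ * n) := by field_simp
        _ ≤ ρ * u := by rw [hρ]; gcongr)
    hZ.ge (by rw [div_le_iff₀ hd] at hK; nlinarith)
    (by
      have : (β + e) * k ≤ 2 * k := by gcongr; linarith
      have e4' : 2 * (k : ℝ) ^ 2 * ρ / u ≤ 1 := e4
      linarith)
    (by
      have e3' : (k : ℝ) ^ 2 * Z / u ≤ σ := e3
      have hk' : (Z * K) ^ k / k.factorial ≤ σ := hk
      linarith)
    (by
      have e5' : Θ * (2 * (k : ℝ) ^ 2 * ρ) / u ≤ d / 8 := e5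
      have e6' : A / ξ ^ 2 * b ^ 2 / n ≤ d / 8 := e6
      rw [mul_div_assoc] at e5'
      rw [mul_div_right_comm, div_div] at e6'
      rw [sub_sub_cancel, ← Real.exp_add]
      exact Real.one_le_exp (by linarith))
    U w (by
      have : (u : ℝ) < U.card + k := by linarith
      exact_mod_cast this) hR
  rw [max_eq_left, hA] at this
  · simpa using this
  have hU0 : (0 : ℝ) < U.card := by linarith
  have h3 : (∑ x ∈ U, (w.count x : ℝ)) / U.card ≤ (β + 2 * ξ) * n := by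
    rw [div_le_iff₀ hU0]
    refine (up_cnt U w).trans (hw.trans ?_)
    calc β * (n : ℝ) ^ 2 ≤ (β + 2 * ξ) * (1 - ξ) * n ^ 2 := by
          gcongr
          nlinarith
      _ = (β + 2 * ξ) * n * ((1 - ξ) * n) := by ring
      _ ≤ _ := by gcongr
  have h4 : (β + e) * ((1 - 3 * ξ) * n) ≤ (β + e) * (U.card - u) :=
    mul_le_mul_of_nonneg_left (by linarith) (by linarith)
  have h5 : (β + 3 * ξ) * n ≤ (β + e) * (1 - 3 * ξ) * n := by
    gcongr
    nlinarith
  linarith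

theorem up (h1 : S_Ind) (h2 : S_Miss) (h3 : S_Num) : S_Up := by
  intro η δ C hη hδ hC
  obtain ⟨d, hd, hd1, hdδ⟩ : ∃ d : ℝ, 0 < d ∧ d ≤ 1 ∧ 3 * d ≤ δ :=
    ⟨min 1 (δ / 3), by positivity, min_le_left _ _, by linarith [min_le_right 1 (δ / 3)]⟩
  obtain ⟨ξ, hξ, hξe, hξd⟩ := up_xi (show 0 < min η 1 / 9 by positivity) hd
  have hξ1 : ξ ≤ 1 := by linarith [min_le_right η 1]
  obtain ⟨n0, hn0⟩ := eventually_atTop.1 ((up_core h1 h2 (min_le_right η 1) hd hC hξ hξe).and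
    ((tendsto_natCast_atTop_atTop.const_mul_atTop hd).eventually_ge_atTop 1))
  refine ⟨n0, fun n hn β c hβ hβ1 hc hcC hE w hw => ?_⟩
  obtain ⟨hcore, hdn⟩ := hn0 n hn
  have hn1 : (1 : ℝ) ≤ n := by nlinarith [Nat.cast_nonneg (α := ℝ) n]
  obtain ⟨U, hU⟩ : ∃ U : Finset (Fin n), ∀ x, x ∈ U ↔ (w.count x : ℝ) ≤ n / ξ :=
    ⟨univ.filter fun x => (w.count x : ℝ) ≤ n / ξ, by simp⟩
  have hc1 : U.card + Uᶜ.card = n := by simp
  have hc2 : (U.card : ℝ) + Uᶜ.card = n := by exact_mod_cast hc1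
  have hH : (Uᶜ.card : ℝ) ≤ ξ * n := by
    have h4 : Uᶜ.card • ((n : ℝ) / ξ) ≤ _ := card_nsmul_le_sum Uᶜ (fun x => (w.count x : ℝ)) _
      fun x hx => (not_le.1 fun h => mem_compl.1 hx ((hU x).2 h)).le
    have h5 := h4.trans ((up_cnt _ w).trans (hw.trans (mul_le_of_le_one_left (sq_nonneg _) hβ1)))
    rw [nsmul_eq_mul, ← mul_div_assoc, div_le_iff₀ hξ] at h5
    nlinarith
  have h4 := hcore β c hβ hβ1 hc hcC (fun t ht => le_trans (by gcongr; exact min_le_left _ _)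
    (hE t ht)) (Fin n) U w hw (by linarith) fun x hx => (hU x).1 hx
  have h5 : (Uᶜ.card.factorial : ℝ) * miss U w ≤ miss univ w := by
    have := h2.2.2.2.1 (Fin n) U Uᶜ w disjoint_compl_right
    rw [union_compl] at this
    exact_mod_cast this
  have h6 : (miss univ w : ℝ) + N w = n.factorial := by exact_mod_cast h2.2.2.2.2 n w
  have h7 : (n.choose Uᶜ.card : ℝ) * Uᶜ.card.factorial * U.card.factorial = n.factorial := by
    have := Nat.choose_mul_factorial_mul_factorial (n := n) (k := Uᶜ.card) (by omega)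
    rw [show n - Uᶜ.card = U.card by omega] at this
    exact_mod_cast this
  have h8 : (n.choose Uᶜ.card : ℝ) ≤ Real.exp (d * n) := by
    refine (h3.2.1 n _ ξ hξ).trans (Real.exp_le_exp.2 ?_)
    have := Real.log_nonpos hξ.le hξ1
    nlinarith
  have h9 : ∀ x : ℝ, 1 ≤ x → 2 ≤ Real.exp x := fun x hx => by linarith [Real.add_one_le_exp x]
  have h10 : Real.exp (-((c + d) * n)) ≤ 2 * (miss U w / U.card.factorial) := by
    have a1 : Real.exp (-((c + d) * n)) ≤ Real.exp (-((c + d) * U.card)) :=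
      Real.exp_le_exp.2 (by nlinarith [Nat.cast_nonneg (α := ℝ) Uᶜ.card])
    have a2 : Real.exp (-((C + 2) * n)) * 2 ≤ Real.exp (-((c + d) * n)) := by
      refine (mul_le_mul_of_nonneg_left (h9 n hn1) (Real.exp_pos _).le).trans ?_
      rw [← Real.exp_add]
      exact Real.exp_le_exp.2 (by nlinarith)
    linarith
  have hf : (0 : ℝ) < U.card.factorial := by exact_mod_cast U.card.factorial_pos
  have h11 : Real.exp (d * n) * Real.exp (-((c + δ) * n)) * 2 ≤ Real.exp (-((c + d) * n)) := by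
    refine (mul_le_mul_of_nonneg_left (h9 _ hdn) (by positivity)).trans ?_
    rw [← Real.exp_add, ← Real.exp_add]
    exact Real.exp_le_exp.2 (by nlinarith)
  have h12 : Real.exp (d * n) * Real.exp (-((c + δ) * n)) * U.card.factorial ≤ miss U w := by
    rw [← le_div_iff₀ hf]
    linarith
  calc (n.factorial : ℝ) * Real.exp (-((c + δ) * n)) + N w
      ≤ Real.exp (d * n) * Uᶜ.card.factorial * U.card.factorial * Real.exp (-((c + δ) * n)) +
        N w := by rw [← h7]; gcongr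
    _ = Uᶜ.card.factorial * (Real.exp (d * n) * Real.exp (-((c + δ) * n)) * U.card.factorial) +
        N w := by ring
    _ ≤ Uᶜ.card.factorial * miss U w + N w := by gcongr
    _ ≤ _ := by linarith

end Pool.Agent.P.MP_02a1b3_co.As
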