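import Pool.Agent.P.MP_02a1b3_co.As.Defs

set_option autoImplicit false

open Finset

namespace Pool.Agent.P.MP_02a1b3_co.As

variable {α : Type} [DecidableEq α]

theorem win_nx (U : Finset α) (p : α → ℝ) (hp : ∀ x ∈ U, 0 < p x) (hs : ∑ x ∈ U, p x ≤ 1)
    (v : List α) : ∀ x, 0 ≤ nx U p v x ∧ nx U p v x ≤ 1 := by
  induction v with
  | nil => intro x; simp [nx]
  | cons a v ih =>
    intro x
    by_cases h : x = a
    · subst h
      simp only [nx, Function.update_self]
      refine ⟨sum_nonneg fun y hy => mul_nonneg (hp y hy).le (ih y).1, le_trans ?_ hs⟩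
      exact sum_le_sum fun y hy => mul_le_of_le_one_right (hp y hy).le (ih y).2
    · simp only [nx, Function.update_of_ne h]
      exact ih x

theorem win_FF (U : Finset α) (p : α → ℝ) (hp : ∀ x ∈ U, 0 < p x) (hs : ∑ x ∈ U, p x ≤ 1)
    (v : List α) : FF U p v ≤ 1 :=
  le_trans (sum_le_sum fun y hy => mul_le_of_le_one_right (hp y hy).le (win_nx U p hp hs v y).2) hs

theorem win_after_sub (x : α) (v : List α) : (after x v).Sublist v := by
  induction v with
  | nil => simp [after]
  | cons a v ih =>
    by_cases h : a = x
    · simp [after, h]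
    · simp only [after, if_neg h]
      exact ih.cons a

theorem win_after_append (x : α) (v w : List α) :
    after x (v ++ w) = if x ∈ v then after x v ++ w else after x w := by
  induction v with
  | nil => simp
  | cons a v ih =>
    by_cases h : a = x
    · simp [after, h]
    · have h' : x ≠ a := fun e => h e.symm
      simp [after, h, h', ih]

theorem win_choose (U : Finset α) (j : ℕ) (v : List α) :
    ∑ x ∈ U, (if x ∈ v then (after x v).length.choose j else 0) ≤ v.length.choose (j + 1) := by
  induction v with
  | nil => simp
  | cons a v ih =>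
    have h1 : ∑ x ∈ U, (if x ∈ a :: v then (after x (a :: v)).length.choose j else 0) ≤
        ∑ x ∈ U, ((if x = a then v.length.choose j else 0) +
          (if x ∈ v then (after x v).length.choose j else 0)) := by
      refine sum_le_sum fun x _ => ?_
      by_cases h : x = a
      · subst h
        simp [after]
      · have h' : a ≠ x := fun e => h e.symm
        simp [after, h, h']
    rw [sum_add_distrib, sum_ite_eq'] at h1
    rw [List.length_cons, Nat.choose_succ_succ']
    split_ifs at h1 <;> omega

theorem win : S_Win := by
  intro α _ μ U p Z Φ k v1 v2 hR hμ hU hk hp hZ hs hΦ hD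
  set z : ℝ := Z / U.card with hz
  have hu : (0 : ℝ) < U.card := by exact_mod_cast hU.card_pos
  have hz0 : 0 ≤ z := by
    obtain ⟨x, hx⟩ := hU
    exact (hp x hx).le.trans (hZ x hx)
  have key : ∀ j, ∀ D ⊆ U, D.card + j ≤ k → ∀ v : List α,
      (Φ * ∏ x ∈ D, (U.card * p x)) *
        (FF U p v - z ^ j * v.length.choose j - j * (D.card + j) * z) ≤ μ (U \ D) (v ++ v2) := by
    intro j
    induction j with
    | zero =>
      intro D hDU _ v
      have hP : 0 ≤ Φ * ∏ x ∈ D, (U.card * p x) :=
        mul_nonneg hΦ (prod_nonneg fun x hx => mul_nonneg hu.le (hp x (hDU hx)).le)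
      refine le_trans (mul_nonpos_of_nonneg_of_nonpos hP ?_) (hμ _ _)
      have := win_FF U p hp hs v
      simp only [pow_zero, Nat.choose_zero_right, Nat.cast_one, Nat.cast_zero]
      linarith
    | succ j ih =>
      intro D hDU hj v
      set P : ℝ := Φ * ∏ x ∈ D, (U.card * p x) with hPdef
      have hP : 0 ≤ P :=
        mul_nonneg hΦ (prod_nonneg fun x hx => mul_nonneg hu.le (hp x (hDU hx)).le)
      have hne : (U \ D).Nonempty := by
        rw [← card_pos, card_sdiff_of_subset hDU]
        omega
      have h1 := hR (U \ D) (v ++ v2) (fun x => if x ∈ v then after x v ++ v2 else v2) hne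
        (fun x _ σ h => by
          have h2 := sublist_after h
          rw [win_after_append] at h2
          split_ifs at h2 ⊢
          exacts [h2, h2.trans (win_after_sub x v2)])
      set e : α → ℝ := fun x => ((if x ∈ v then (after x v).length.choose j else 0 : ℕ) : ℝ)
        with he
      set c : ℝ := j * (D.card + 1 + j) * z with hc
      have hc0 : 0 ≤ c := by positivity
      have h3 : ∀ x ∈ U \ D, P * U.card * (p x * nx U p v x - p x * (z ^ j * e x) - p x * c) ≤
          μ ((U \ D).erase x) (if x ∈ v then after x v ++ v2 else v2) := by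
        intro x hx
        obtain ⟨hxU, hxD⟩ := mem_sdiff.1 hx
        have e1 : (U \ D).erase x = U \ insert x D := by
          ext y
          simp only [mem_erase, mem_sdiff, mem_insert]
          tauto
        have e2 : Φ * ∏ y ∈ insert x D, (U.card * p y) = P * U.card * p x := by
          rw [prod_insert hxD, hPdef]; ring
        have e3 : (insert x D).card = D.card + 1 := card_insert_of_notMem hxD
        rw [e1, nx_eq]
        by_cases hv : x ∈ v
        · have h4 := ih (insert x D) (insert_subset hxU hDU) (by omega) (after x v)
          rw [e2, e3] at h4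
          simp only [he, hc, if_pos hv]
          push_cast at h4
          linarith
        · have h4 := hD (insert x D) (insert_subset hxU hDU) (insert_nonempty _ _) (by omega)
          rw [e2] at h4
          simp only [he, if_neg hv]
          have : 0 ≤ P * U.card * (p x * c) :=
            mul_nonneg (mul_nonneg hP hu.le) (mul_nonneg (hp x hxU).le hc0)
          push_cast
          linarith
      have h5 := sum_le_sum h3
      rw [← mul_sum, sum_sub_distrib, sum_sub_distrib, ← sum_mul] at h5
      have a1 : FF U p v - D.card * z ≤ ∑ x ∈ U \ D, p x * nx U p v x := by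
        have b1 := sum_sdiff (f := fun x => p x * nx U p v x) hDU
        have b2 : ∑ x ∈ D, p x * nx U p v x ≤ D.card * z := by
          rw [← nsmul_eq_mul, ← sum_const]
          exact sum_le_sum fun x hx => (mul_le_of_le_one_right (hp x (hDU hx)).le
            (win_nx U p hp hs v x).2).trans (hZ x (hDU hx))
        unfold FF
        linarith
      have a2 : ∑ x ∈ U \ D, p x * (z ^ j * e x) ≤ z ^ (j + 1) * v.length.choose (j + 1) := by
        have b1 : ∑ x ∈ U \ D, e x ≤ v.length.choose (j + 1) := by
          simp only [he]
          exact_mod_cast win_choose (U \ D) j v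
        calc _ ≤ ∑ x ∈ U \ D, z * (z ^ j * e x) := sum_le_sum fun x hx =>
              mul_le_mul_of_nonneg_right (hZ x (mem_sdiff.1 hx).1) (by simp only [he]; positivity)
          _ = z ^ (j + 1) * ∑ x ∈ U \ D, e x := by
              rw [mul_sum]
              exact sum_congr rfl fun x _ => by ring
          _ ≤ _ := mul_le_mul_of_nonneg_left b1 (by positivity)
      have a3 : (∑ x ∈ U \ D, p x) * c ≤ c :=
        mul_le_of_le_one_left hc0 (le_trans (sum_le_sum_of_subset_of_nonneg sdiff_subset
          fun x hx _ => (hp x hx).le) hs)
      have a4 : ((U \ D).card : ℝ) * μ (U \ D) (v ++ v2) ≤ U.card * μ (U \ D) (v ++ v2) :=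
        mul_le_mul_of_nonneg_right (by exact_mod_cast card_le_card sdiff_subset) (hμ _ _)
      have a5 : FF U p v - z ^ (j + 1) * v.length.choose (j + 1) -
          ((j + 1 : ℕ) : ℝ) * (D.card + ((j + 1 : ℕ) : ℝ)) * z ≤
          ∑ x ∈ U \ D, p x * nx U p v x - ∑ x ∈ U \ D, p x * (z ^ j * e x) -
            (∑ x ∈ U \ D, p x) * c := by
        have : 0 ≤ ((j : ℝ) + 1) * z := by positivity
        push_cast
        nlinarith
      have a6 := mul_le_mul_of_nonneg_left a5 (mul_nonneg hP hu.le)
      refine le_of_mul_le_mul_left ?_ hu
      linarith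
  have h := key k ∅ (empty_subset _) (by simp) v1
  simp only [prod_empty, mul_one, card_empty, Nat.cast_zero, zero_add, sdiff_empty] at h
  have e : (k : ℝ) ^ 2 * Z / U.card = k * k * z := by rw [hz]; ring
  rw [e]
  exact h

end Pool.Agent.P.MP_02a1b3_co.As
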