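import Pool.Agent.P.MP_02a1b3_co.As.EE
import Pool.Agent.P.MP_02a1b3_co.As.Gap
import Pool.Agent.P.MP_02a1b3_co.As.Cher
import Pool.Agent.P.MP_02a1b3_co.As.Kraft
import Pool.Agent.P.MP_02a1b3_co.As.Surv
import Pool.Agent.P.MP_02a1b3_co.As.Ent
import Pool.Agent.P.MP_02a1b3_co.As.Cut
import Pool.Agent.P.MP_02a1b3_co.As.Blocks
import Pool.Agent.P.MP_02a1b3_co.As.Num
import Pool.Agent.P.MP_02a1b3_co.As.Low
import Pool.Agent.P.MP_02a1b3_co.As.Miss
import Pool.Agent.P.MP_02a1b3_co.As.Clock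
import Pool.Agent.P.MP_02a1b3_co.As.Win
import Pool.Agent.P.MP_02a1b3_co.As.Ind
import Pool.Agent.P.MP_02a1b3_co.As.Up
import Pool.Agent.P.MP_02a1b3_co.As.Cost
import Pool.Agent.P.MP_02a1b3_co.As.Sym
import Pool.Agent.P.MP_02a1b3_co.As.Emb
import Pool.Agent.P.MP_02a1b3_co.As.Id
import Pool.Agent.P.MP_02a1b3_co.As.Form
import Pool.Agent.P.MP_02a1b3_co.As.Tail
import Pool.Agent.P.MP_02a1b3_co.As.Small
import Pool.Agent.P.MP_02a1b3_co.As.MainS

set_option autoImplicit false

namespace Pool.Agent.P.MP_02a1b3_co.As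

theorem all_id : S_Id := idS costS emb

theorem all_form : S_Form := form all_id

theorem all_sym : S_Sym := sym costS

theorem all_low : S_Low := low ee (cher ee) (ent kraft surv) cut blocks num

theorem all_up : S_Up := up (ind ee (clock ee) win) missS num

theorem all_main : S_Main :=
  mainS ee (gap ee) all_low all_up all_sym (small (tail all_id) num)

end Pool.Agent.P.MP_02a1b3_co.As
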