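import Pool.Agent.P.MP_02a1b3_co.As.Defs

set_option autoImplicit false

open Finset

namespace Pool.Agent.P.MP_02a1b3_co.As

section

variable {α : Type} [DecidableEq α] {U : Finset α} {p : α → ℝ}

theorem clock_pos (hU : U.Nonempty) (hp : ∀ x ∈ U, 0 < p x) (v : List α) :
    (∀ x, 0 < nx U p v x) ∧ 0 < FF U p v := by
  have key : ∀ v : List α, (∀ x, 0 < nx U p v x) → 0 < FF U p v := fun v h =>
    sum_pos (fun x hx => mul_pos (hp x hx) (h x)) hU
  induction v with
  | nil => exact ⟨fun _ => one_pos, key _ fun _ => one_pos⟩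
  | cons a v ih =>
    have : ∀ x, 0 < nx U p (a :: v) x := fun x => by
      rw [nx, Function.update_apply]
      split_ifs
      exacts [ih.2, ih.1 x]
    exact ⟨this, key _ this⟩

/-- the clock of a letter -/
noncomputable def clock_G (U : Finset α) (p : α → ℝ) : List α → α → ℝ
  | [], _ => 1 / FF U p [] - 1
  | a :: v, x => clock_G U p v x + nx U p (a :: v) x * (1 / FF U p (a :: v) - 1 / FF U p v)

theorem clock_sum (hU : U.Nonempty) (hp : ∀ x ∈ U, 0 < p x) (v : List α) :
    ∑ x ∈ U, p x * clock_G U p v x ≤ -Real.log (FF U p v) := by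
  induction v with
  | nil =>
    have h := (clock_pos hU hp []).2
    have e : ∑ x ∈ U, p x = FF U p [] := by simp [FF, nx]
    simp only [clock_G]
    rw [← sum_mul, e, mul_sub, mul_one_div_cancel h.ne']
    linarith [Real.log_le_sub_one_of_pos h]
  | cons a v ih =>
    have h := (clock_pos hU hp v).2
    have h' := (clock_pos hU hp (a :: v)).2
    have h1 := Real.log_le_sub_one_of_pos (div_pos h' h)
    simp only [clock_G, mul_add, ← mul_assoc]
    rw [sum_add_distrib, ← sum_mul, ← FF, mul_sub, mul_one_div_cancel h'.ne', mul_one_div]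
    rw [Real.log_div h'.ne' h.ne'] at h1
    linarith

theorem clock_low (hU : U.Nonempty) (hp : ∀ x ∈ U, 0 < p x) (s : ℝ) (x : α) (v : List α) :
    (v.count x + 1) * (Real.exp s - 1 - s * Real.exp s) + Real.exp s * -Real.log (FF U p v) ≤
      clock_G U p v x := by
  have step : ∀ v : List α, v.count x * (Real.exp s - 1 - s * Real.exp s) +
      Real.exp s * -Real.log (nx U p v x) ≤ clock_G U p v x - (nx U p v x / FF U p v - 1) →
      (v.count x + 1) * (Real.exp s - 1 - s * Real.exp s) + Real.exp s * -Real.log (FF U p v) ≤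
        clock_G U p v x := fun v h => by
    obtain ⟨h1, h2⟩ := clock_pos hU hp v
    have h3 := mul_le_mul_of_nonneg_left
      (Real.add_one_le_exp (Real.log (nx U p v x / FF U p v) - s)) (Real.exp_pos s).le
    rw [← Real.exp_add, add_sub_cancel, Real.exp_log (div_pos (h1 x) h2),
      Real.log_div (h1 x).ne' h2.ne'] at h3
    linarith
  refine step v ?_
  induction v with
  | nil => simp [clock_G, nx]
  | cons a v ih =>
    by_cases h : x = a
    · subst h
      have e : nx U p (x :: v) x = FF U p v := Function.update_self ..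
      rw [clock_G, e, List.count_cons_self, mul_sub (FF U p v),
        mul_one_div_cancel (clock_pos hU hp v).2.ne', mul_one_div]
      push_cast
      linarith [step v ih]
    · have e : nx U p (a :: v) x = nx U p v x := Function.update_of_ne h ..
      rw [clock_G, e, List.count_cons_of_ne (Ne.symm h), mul_sub (nx U p v x), mul_one_div,
        mul_one_div]
      linarith

theorem clock_count (U : Finset α) (v : List α) : ∑ x ∈ U, v.count x ≤ v.length := by
  induction v with
  | nil => simp
  | cons a v ih =>
    simp only [List.count_cons, sum_add_distrib, beq_iff_eq, sum_ite_eq, List.length_cons]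
    split_ifs <;> omega

end

theorem clock (hE : S_E) : S_Clock := by
  intro α _ U p lam K v hU hp hl hv
  refine ⟨(clock_pos hU hp v).2, fun h => ?_⟩
  have hT : 0 < -Real.log (FF U p v) := neg_pos.2 (Real.log_neg (clock_pos hU hp v).2 h)
  have h1 := clock_sum hU hp v
  have h2 := fun s x => clock_low hU hp s x v
  generalize -Real.log (FF U p v) = T at hT h1 h2
  obtain ⟨m, hm, h3⟩ := hE.2.2.2.2.2.1 (T / (K + 1))
  have h4 := hE.2.1 (T / (K + 1))
  have h5 : ∀ x ∈ U, T * (Real.exp lam * E (T / (K + 1))) * (1 + Real.log (p x) - lam +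
      m * (T / (K + 1)) * (1 - (v.count x + 1) / (K + 1))) ≤ p x * clock_G U p v x := fun x hx => by
    have h6 := h2 (T / (v.count x + 1)) x
    have h7 : (0 : ℝ) < v.count x + 1 := by positivity
    generalize (v.count x : ℝ) + 1 = c at h6 h7
    have h8 : T * E (T / c) ≤ clock_G U p v x := by
      refine le_trans (le_of_eq ?_) h6
      have := hE.1 (T / c)
      generalize Real.exp (T / c) = e at this
      generalize E (T / c) = e' at this
      rw [show e = T / c * e' + 1 by linarith]
      field_simp
      ring
    have h9 : T / (K + 1) * (1 - c / (K + 1)) ≤ T / c - T / (K + 1) := by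
      rw [← sub_nonneg, show T / c - T / (K + 1) - T / (K + 1) * (1 - c / (K + 1)) =
        T * (K + 1 - c) ^ 2 / (c * (K + 1) ^ 2) by field_simp]
      positivity
    have h10 := mul_le_mul_of_nonneg_left (Real.add_one_le_exp
      (Real.log (p x) - lam + (T / c - T / (K + 1)) * m)) (Real.exp_pos lam).le
    rw [← Real.exp_add, ← add_assoc, add_sub_cancel, Real.exp_add, Real.exp_log (hp x hx)] at h10
    calc _ ≤ T * (Real.exp lam * E (T / (K + 1))) *
          (Real.log (p x) - lam + (T / c - T / (K + 1)) * m + 1) :=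
        mul_le_mul_of_nonneg_left (by linarith [mul_le_mul_of_nonneg_left h9 hm]) (by positivity)
      _ ≤ p x * (T * (Real.exp ((T / c - T / (K + 1)) * m) * E (T / (K + 1)))) := by
        linarith [mul_le_mul_of_nonneg_left h10 (mul_pos hT h4).le]
      _ ≤ _ := mul_le_mul_of_nonneg_left
        ((mul_le_mul_of_nonneg_left (h3 _) hT.le).trans h8) (hp x hx).le
  have h6 := (sum_le_sum h5).trans h1
  have h7 : (∑ x ∈ U, (v.count x : ℝ) + U.card) / (K + 1) ≤ U.card := by
    rw [div_le_iff₀ (by positivity)]
    have : ∑ x ∈ U, (v.count x : ℝ) ≤ K * U.card := by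
      exact_mod_cast (clock_count U v).trans hv
    linarith
  rw [← mul_sum, sum_add_distrib, ← mul_sum, sum_sub_distrib, sum_sub_distrib, sum_add_distrib,
    ← sum_div, sum_add_distrib] at h6
  simp only [sum_const, nsmul_eq_mul, mul_one] at h6
  have h8 := mul_nonneg (show 0 ≤ m * (T / (K + 1)) by positivity) (sub_nonneg.2 h7)
  refine le_of_mul_le_mul_left (le_trans ?_ (h6.trans_eq (mul_one T).symm)) hT
  rw [mul_assoc, mul_comm (U.card : ℝ), ← mul_assoc]
  exact mul_le_mul_of_nonneg_left (by linarith) (by positivity)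

end Pool.Agent.P.MP_02a1b3_co.As
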