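import Pool.Agent.P.MP_02a1b3_co.Main

set_option autoImplicit false

open Finset

namespace Pool.Agent.P.MP_02a1b3_co.As

/-- number of permutations contained in the word `w` -/
def N {n : ℕ} (w : List (Fin n)) : ℕ :=
  (univ.filter fun π : Equiv.Perm (Fin n) => (List.ofFn π).Sublist w).card

/-- the first `L` letters of the periodic word `0 1 ... (n-1) 0 1 ...` -/
def per (n L : ℕ) [NeZero n] : List (Fin n) := List.ofFn fun i : Fin L => Fin.ofNat n i.val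

/-- moment generating function of the uniform law on the unit interval -/
noncomputable def E (θ : ℝ) : ℝ := ∫ x in (0 : ℝ)..1, Real.exp (θ * x)

/-- number of descents -/
def dsc {n : ℕ} (π : Equiv.Perm (Fin n)) : ℕ :=
  (univ.filter fun i : Fin n => ∃ h : i.val + 1 < n, π ⟨i.val + 1, h⟩ < π i).card

/-- last position (counted from zero) used by the leftmost copy of `π` in the periodic word -/
def cost {n : ℕ} [NeZero n] (π : Equiv.Perm (Fin n)) : ℕ :=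
  n * dsc π + (π ⟨n - 1, Nat.sub_one_lt (NeZero.ne n)⟩).val

/-- number of orderings of `V` that are not subsequences of `v` -/
noncomputable def miss {α : Type} [DecidableEq α] (V : Finset α) (v : List α) : ℕ :=
  (V.toList.permutations.toFinset.filter fun l => ¬ l.Sublist v).card

/-- the part of `v` after the first `x` (empty if `x` does not occur) -/
def after {α : Type} [DecidableEq α] (x : α) : List α → List α
  | [] => []
  | a :: v => if a = x then v else after x v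

/-- `nx U p v x` is `FF U p (after x v)` if `x` occurs in `v`, and `1` otherwise -/
noncomputable def nx {α : Type} [DecidableEq α] (U : Finset α) (p : α → ℝ) : List α → α → ℝ
  | [] => fun _ => 1
  | a :: v => Function.update (nx U p v) a (∑ x ∈ U, p x * nx U p v x)

/-- total weight of the minimal words over `U` that are not subsequences of `v` -/
noncomputable def FF {α : Type} [DecidableEq α] (U : Finset α) (p : α → ℝ) (v : List α) : ℝ :=
  ∑ x ∈ U, p x * nx U p v x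

/-- the one letter recursion -/
def Rec {α : Type} [DecidableEq α] (μ : Finset α → List α → ℝ) : Prop :=
  ∀ (V : Finset α) (v : List α) (f : α → List α), V.Nonempty →
    (∀ x ∈ V, ∀ σ : List α, (x :: σ).Sublist v → σ.Sublist (f x)) →
    ∑ x ∈ V, μ (V.erase x) (f x) ≤ V.card * μ V v

def S_E : Prop :=
  (∀ θ, θ * E θ = Real.exp θ - 1) ∧ (∀ θ, 0 < E θ) ∧ E 0 = 1 ∧ Monotone E ∧
  (∀ θ θ', θ' ≤ θ → E θ ≤ Real.exp (θ - θ') * E θ') ∧
  (∀ θ, ∃ m, 0 ≤ m ∧ ∀ θ', Real.exp ((θ' - θ) * m) * E θ ≤ E θ') ∧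
  (∀ θ, E θ = Real.exp θ * E (-θ)) ∧
  (∀ δ θ, 0 < δ → δ ≤ 1 → 0 ≤ θ → δ * Real.exp (θ * (1 - δ)) ≤ E θ) ∧
  (∀ η, 0 < η → ∃ θ, 0 < θ ∧ Real.log (E θ) < (1 / 2 + η) * θ)

def S_Gap : Prop :=
  ∀ η : ℝ, 0 < η → ∃ Θ C g : ℝ, 0 < Θ ∧ 0 < C ∧ 0 < g ∧ ∀ y1 y2 : ℝ, y1 + η ≤ y2 → y2 ≤ 1 →
    1 / 2 + η ≤ y2 → ∃ c θ : ℝ, 0 ≤ c ∧ c ≤ C ∧ 0 < θ ∧ θ ≤ Θ ∧
      (∀ t, 0 ≤ t → y1 * t - Real.log (E t) ≤ c) ∧ c + g ≤ y2 * θ - Real.log (E θ)

def S_Cher : Prop :=
  ∀ (n k : ℕ) (θ : ℝ) (W : List (Fin n)), 0 < n → 0 < θ →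
    ((univ.filter fun B : Fin k → Fin n => (List.ofFn B).Sublist W).card : ℝ)
      ≤ Real.exp (θ * W.length / n) * (n * E (-θ)) ^ k

def S_Kraft : Prop :=
  ∀ (ι β : Type) [Fintype ι] [DecidableEq ι] [Fintype β] [DecidableEq β] (c : ι → ℕ)
    (O : ι → (ι → β) → Finset β) (X : Finset (ι → β)),
    (∀ j x x', (∀ j', c j' < c j → x j' = x' j') → O j x = O j x') →
    (∀ x ∈ X, ∀ j, x j ∈ O j x) →
    (X.card : ℝ) * Real.log X.card ≤ ∑ x ∈ X, ∑ j, Real.log (O j x).card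

def S_Surv : Prop :=
  ∀ (α ι : Type) [Fintype α] [DecidableEq α] [Fintype ι] [DecidableEq ι] (k T : ℕ)
    (x : ι → Fin k → α) (j : ι) (t : Fin T) (F : Finset (Fin k → α)),
    Function.Injective (fun q : ι × Fin k => x q.1 q.2) →
    Fintype.card α ≤ Fintype.card ι * k + k →
    (∑ c ∈ univ.filter (fun c : ι → Fin T => c j = t),
      ((F.filter fun B => ∀ j', c j' < c j → ∀ i i', B i ≠ x j' i').card : ℝ))
      ≤ (T : ℝ) ^ (Fintype.card ι - 1) *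
        (F.card * (((T : ℝ) - t.val) / T) ^ k + 3 * (k : ℝ) ^ 3 * (Fintype.card α : ℝ) ^ (k - 1))

def S_Ent : Prop :=
  ∀ (α ι : Type) [Fintype α] [DecidableEq α] [Fintype ι] [DecidableEq ι] (k T : ℕ)
    (F : ι → Finset (Fin k → α)) (A : ι → ℝ) (D : ℝ), 0 < T → 0 < D →
    (∀ j, ((F j).card : ℝ) ≤ A j) →
    3 * (k : ℝ) ^ 3 * (Fintype.card α : ℝ) ^ (k - 1) ≤ D →
    Fintype.card α ≤ Fintype.card ι * k + k →
    ((univ.filter fun x : ι → Fin k → α =>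
      (∀ j, x j ∈ F j) ∧ Function.Injective (fun q : ι × Fin k => x q.1 q.2)).card : ℝ)
      ≤ Real.exp (∑ j, (∑ s ∈ range T, Real.log (A j * (((s : ℝ) + 1) / T) ^ k + D)) / T)

def S_Cut : Prop :=
  ∀ (α : Type) [DecidableEq α] (n J : ℕ) (w : List α), 0 < n →
    ∃ 𝒜 : Finset (Fin J → List α), 𝒜.card ≤ (w.length / n + J).choose J ∧
      (∀ W ∈ 𝒜, ∑ j, (W j).length ≤ w.length + n * J) ∧
      ∀ x : Fin J → List α, (List.ofFn x).flatten.Sublist w → ∃ W ∈ 𝒜, ∀ j, (x j).Sublist (W j)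

def S_Blocks : Prop :=
  ∀ (n k : ℕ) (w : List (Fin n)), 0 < n → 0 < k →
    N w ≤ n ^ k * (univ.filter fun x : Fin (n / k) → Fin k → Fin n =>
      Function.Injective (fun q : Fin (n / k) × Fin k => x q.1 q.2) ∧
      (List.ofFn fun j => List.ofFn (x j)).flatten.Sublist w).card

def S_Num : Prop :=
  (∀ δ : ℝ, 0 < δ → ∃ T : ℕ, 0 < T ∧
    ∑ s ∈ range T, Real.log (((s : ℝ) + 1) / T) ≤ T * (δ - 1)) ∧
  (∀ (m j : ℕ) (t : ℝ), 0 < t → (m.choose j : ℝ) ≤ Real.exp (t * m - j * Real.log t)) ∧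
  (∀ n : ℕ, Real.exp (n * (Real.log n - 1)) ≤ n.factorial)

def S_Low : Prop :=
  ∀ δ Θ : ℝ, 0 < δ → 0 < Θ → ∃ n0 : ℕ, ∀ n : ℕ, n0 ≤ n → ∀ θ : ℝ, 0 < θ → θ ≤ Θ →
    ∀ w : List (Fin n), w.length ≤ n * n →
      (N w : ℝ) ≤ n.factorial * Real.exp (θ * w.length / n + n * Real.log (E (-θ)) + δ * n)

def S_Miss : Prop :=
  (∀ (α : Type) [DecidableEq α] (V : Finset α) (v : List α) (f : α → List α),
    (∀ x ∈ V, ∀ σ : List α, (x :: σ).Sublist v → σ.Sublist (f x)) →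
    ∑ x ∈ V, miss (V.erase x) (f x) ≤ miss V v) ∧
  (∀ (α : Type) [DecidableEq α] (V : Finset α), V.Nonempty → miss V [] = V.card.factorial) ∧
  (∀ (α : Type) [DecidableEq α] (V : Finset α) (v : List α),
    miss V (v.filter fun x => x ∈ V) ≤ miss V v) ∧
  (∀ (α : Type) [DecidableEq α] (V H : Finset α) (v : List α), Disjoint V H →
    H.card.factorial * miss V v ≤ miss (V ∪ H) v) ∧
  (∀ (n : ℕ) (w : List (Fin n)), miss univ w + N w = n.factorial)

def S_Clock : Prop :=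
  ∀ (α : Type) [DecidableEq α] (U : Finset α) (p : α → ℝ) (lam : ℝ) (K : ℕ) (v : List α),
    U.Nonempty → (∀ x ∈ U, 0 < p x) → U.card * lam ≤ ∑ x ∈ U, Real.log (p x) →
    v.length ≤ K * U.card → 0 < FF U p v ∧
      (FF U p v < 1 → U.card * Real.exp lam * E (-Real.log (FF U p v) / (K + 1)) ≤ 1)

def S_Win : Prop :=
  ∀ (α : Type) [DecidableEq α] (μ : Finset α → List α → ℝ) (U : Finset α) (p : α → ℝ)
    (Z Φ : ℝ) (k : ℕ) (v1 v2 : List α), Rec μ → (∀ V v, 0 ≤ μ V v) → U.Nonempty → k ≤ U.card →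
    (∀ x ∈ U, 0 < p x) → (∀ x ∈ U, p x ≤ Z / U.card) → ∑ x ∈ U, p x ≤ 1 → 0 ≤ Φ →
    (∀ D ⊆ U, D.Nonempty → D.card ≤ k → Φ * ∏ x ∈ D, (U.card * p x) ≤ μ (U \ D) v2) →
    Φ * (FF U p v1 - (Z / U.card) ^ k * v1.length.choose k - (k : ℝ) ^ 2 * Z / U.card)
      ≤ μ U (v1 ++ v2)

def S_Ind : Prop :=
  ∀ (α : Type) [DecidableEq α] (μ : Finset α → List α → ℝ)
    (η c C δ β S γ R Θ ρ Z b τ : ℝ) (u0 K k : ℕ),
    Rec μ → (∀ V v, η ≤ μ V v) → (∀ V : Finset α, V.Nonempty → 1 ≤ μ V []) →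
    (∀ (V : Finset α) (v : List α), μ V (v.filter fun x => x ∈ V) ≤ μ V v) →
    Real.exp (-(γ * S ^ 2)) ≤ η → 0 ≤ c → c ≤ C → 0 < δ → 0 ≤ β → 0 ≤ S → 0 ≤ γ → 0 ≤ R →
    (∀ t, 0 ≤ t → β * t - Real.log (E t) ≤ c) →
    2 * γ * (R + S) ≤ Θ → 0 < k → 2 * k ≤ u0 → R ≤ ρ * u0 →
    Real.exp (C + δ / 2 + Θ * ρ) ≤ Z → Θ < (K + 1) * (δ / 2) →
    K + β * k + k * ρ + 2 * (k : ℝ) ^ 2 * ρ / u0 ≤ b →
    (Z * K) ^ k / k.factorial + (k : ℝ) ^ 2 * Z / u0 ≤ τ * Real.exp (-(Θ * K)) →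
    1 ≤ (1 - τ) * Real.exp (δ / 2 - Θ * (2 * (k : ℝ) ^ 2 * ρ / u0) - γ * b ^ 2) →
    ∀ (U : Finset α) (v : List α), u0 < U.card + k → (∀ x ∈ U, (v.count x : ℝ) ≤ R) →
      Real.exp (-((c + δ) * U.card) -
        γ * (max 0 ((∑ x ∈ U, (v.count x : ℝ)) / U.card - β * (U.card - u0) + S)) ^ 2) ≤ μ U v

def S_Up : Prop :=
  ∀ η δ C : ℝ, 0 < η → 0 < δ → 0 < C → ∃ n0 : ℕ, ∀ n : ℕ, n0 ≤ n → ∀ β c : ℝ, 0 ≤ β → β ≤ 1 →
    0 ≤ c → c ≤ C → (∀ t, 0 ≤ t → (β + η) * t - Real.log (E t) ≤ c) →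
    ∀ w : List (Fin n), (w.length : ℝ) ≤ β * n ^ 2 →
      n.factorial * Real.exp (-((c + δ) * n)) + N w ≤ n.factorial

def S_Cost : Prop :=
  ∀ (n L : ℕ) [NeZero n] (π : Equiv.Perm (Fin n)), (List.ofFn π).Sublist (per n L) ↔ cost π < L

def S_Sym : Prop :=
  ∀ (n q : ℕ) [NeZero n], q ≤ n → N (per n (q * n)) + N (per n ((n - q) * n)) = n.factorial

def S_Emb : Prop :=
  ∀ (n L : ℕ) [NeZero n] (π : Equiv.Perm (Fin n)),
    ((Sel n L).filter fun p => StrictMono (p ∘ π)).card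
      = if cost π < L then ((L - 1 - cost π) / n + n).choose n else 0

def S_Id : Prop :=
  ∀ (n L : ℕ) [NeZero n],
    UU n L = ∑ t ∈ range (L / n + 1), (t + n - 1).choose (n - 1) * N (per n (L - t * n))

def S_Form : Prop :=
  ∀ (n L : ℕ) [NeZero n], (N (per n L) : ℤ)
    = ∑ k ∈ range (L / n + 1), (-1) ^ k * (n.choose k : ℤ) * (UU n (L - k * n) : ℤ)

def S_Tail : Prop :=
  ∀ (n L s : ℕ) [NeZero n],
    s * UU n L ≤ s * (s + n).choose n * N (per n L) + (s + n) * UU n (L - n)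

def S_Small : Prop :=
  ∀ ε : ℝ, 0 < ε → ∃ δ0 : ℝ, 0 < δ0 ∧ ∃ n0 : ℕ, ∀ (n : ℕ) [NeZero n], n0 ≤ n → ∀ L L' : ℕ,
    n ≤ L → (L : ℝ) ≤ δ0 * n ^ 2 → (1 + ε) * L ≤ L' + 1 → L' ≤ 2 * L → UU n L ≤ N (per n L')

def S_Main : Prop :=
  ∀ ε : ℝ, 0 < ε → ∃ n0 : ℕ, ∀ (n : ℕ) [NeZero n], n0 ≤ n → ∀ w : List (Fin n),
    N w ≤ N (per n ⌊(1 + ε) * w.length⌋₊)

theorem per_length (n L : ℕ) [NeZero n] : (per n L).length = L := by simp [per]

theorem N_mono {n : ℕ} {w w' : List (Fin n)} (h : w.Sublist w') : N w ≤ N w' := by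
  apply card_le_card
  intro π hπ
  simp only [mem_filter, mem_univ, true_and] at hπ ⊢
  exact hπ.trans h

theorem per_sublist (n : ℕ) [NeZero n] {L L' : ℕ} (h : L ≤ L') : (per n L).Sublist (per n L') := by
  have : per n L = (per n L').take L := by
    apply List.ext_getElem
    · simp [per, h]
    · intro i h1 h2
      simp [per]
  rw [this]
  exact List.take_sublist _ _

theorem N_per_mono (n : ℕ) [NeZero n] {L L' : ℕ} (h : L ≤ L') : N (per n L) ≤ N (per n L') :=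
  N_mono (per_sublist n h)

theorem N_eq_zero {n : ℕ} {w : List (Fin n)} (h : w.length < n) : N w = 0 := by
  unfold N
  rw [card_eq_zero, filter_eq_empty_iff]
  intro π _ hπ
  have := hπ.length_le
  simp at this
  omega

theorem N_le_fac {n : ℕ} (w : List (Fin n)) : N w ≤ n.factorial := by
  unfold N
  refine (card_filter_le _ _).trans ?_
  simp [Fintype.card_perm]

theorem N_le_UU {n : ℕ} (hn : 1 ≤ n) (w : List (Fin n)) : N w ≤ UU n w.length :=
  upper hn w le_rfl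

theorem nx_eq {α : Type} [DecidableEq α] (U : Finset α) (p : α → ℝ) (v : List α) (x : α) :
    nx U p v x = if x ∈ v then FF U p (after x v) else 1 := by
  induction v with
  | nil => simp [nx]
  | cons a v ih =>
    by_cases h : a = x
    · subst h
      simp [nx, after, FF]
    · have h' : x ≠ a := fun e => h e.symm
      simp [nx, after, h, h', ih]

theorem sublist_after {α : Type} [DecidableEq α] {x : α} {σ v : List α}
    (h : (x :: σ).Sublist v) : σ.Sublist (after x v) := by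
  induction v with
  | nil => simp at h
  | cons a v ih =>
    by_cases e : a = x
    · subst e
      simpa [after] using h
    · simp only [after, if_neg e]
      apply ih
      rcases List.sublist_cons_iff.1 h with h | ⟨r, h1, h2⟩
      · exact h
      · exact absurd (List.cons.inj h1).1.symm e

end Pool.Agent.P.MP_02a1b3_co.As
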