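import Pool.Agent.P.MP_02a1b3_co.As.Defs

open Finset

namespace Pool.Agent.P.MP_02a1b3_co.As

theorem ee_mono {f g : ℝ → ℝ} (hf : Continuous f) (hg : Continuous g)
    (h : ∀ x, 0 ≤ x → x ≤ 1 → f x ≤ g x) : ∫ x in (0 : ℝ)..1, f x ≤ ∫ x in (0 : ℝ)..1, g x :=
  intervalIntegral.integral_mono_on zero_le_one (hf.intervalIntegrable _ _)
    (hg.intervalIntegrable _ _) fun x hx => h x hx.1 hx.2

theorem ee_mul (θ : ℝ) : θ * E θ = Real.exp θ - 1 := by
  rw [E, intervalIntegral.mul_integral_comp_mul_left, integral_exp, mul_one, mul_zero,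
    Real.exp_zero]

theorem ee_pos (θ : ℝ) : 0 < E θ :=
  intervalIntegral.intervalIntegral_pos_of_pos
    ((by fun_prop : Continuous fun x : ℝ => Real.exp (θ * x)).intervalIntegrable _ _)
    (fun _ => Real.exp_pos _) one_pos

theorem ee_zero : E 0 = 1 := by simp [E]

theorem ee_tan (θ : ℝ) : ∃ m, 0 ≤ m ∧ ∀ θ', Real.exp ((θ' - θ) * m) * E θ ≤ E θ' := by
  obtain ⟨M, hM⟩ : ∃ M, M = ∫ x in (0 : ℝ)..1, x * Real.exp (θ * x) := ⟨_, rfl⟩
  have h0 : 0 ≤ M := hM ▸ intervalIntegral.integral_nonneg zero_le_one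
    fun x hx => mul_nonneg hx.1 (Real.exp_pos _).le
  obtain ⟨m, hm⟩ : ∃ m, m = M / E θ := ⟨_, rfl⟩
  have h1 : m * E θ = M := by rw [hm, div_mul_cancel₀ _ (ee_pos θ).ne']
  refine ⟨m, hm ▸ div_nonneg h0 (ee_pos θ).le, fun θ' => ?_⟩
  have h2 : ∫ x in (0 : ℝ)..1, (Real.exp ((θ' - θ) * m) * (1 - (θ' - θ) * m) * Real.exp (θ * x) +
      Real.exp ((θ' - θ) * m) * (θ' - θ) * (x * Real.exp (θ * x))) =
      Real.exp ((θ' - θ) * m) * E θ := by
    rw [intervalIntegral.integral_add (Continuous.intervalIntegrable (by fun_prop) _ _)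
      (Continuous.intervalIntegrable (by fun_prop) _ _), intervalIntegral.integral_const_mul,
      intervalIntegral.integral_const_mul, ← hM, ← h1]
    change _ * E θ + _ = _
    ring
  rw [← h2]
  refine ee_mono (by fun_prop) (by fun_prop) fun x _ _ => ?_
  have h3 := Real.add_one_le_exp ((θ' - θ) * (x - m))
  have h4 : Real.exp (θ' * x) = Real.exp ((θ' - θ) * m) * Real.exp (θ * x) *
      Real.exp ((θ' - θ) * (x - m)) := by
    rw [← Real.exp_add, ← Real.exp_add]
    congr 1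
    ring
  have h5 := mul_le_mul_of_nonneg_left h3
    (mul_pos (Real.exp_pos ((θ' - θ) * m)) (Real.exp_pos (θ * x))).le
  rw [h4]
  exact le_trans (le_of_eq (by ring)) h5

theorem ee : S_E := by
  refine ⟨ee_mul, ee_pos, ee_zero, fun a b h => ?_, fun θ θ' h => ?_, ee_tan, fun θ => ?_,
    fun δ θ h0 h1 h2 => ?_, fun η hη => ?_⟩
  · exact ee_mono (by fun_prop) (by fun_prop) fun x hx _ =>
      Real.exp_le_exp.2 (mul_le_mul_of_nonneg_right h hx)
  · rw [E, E, ← intervalIntegral.integral_const_mul]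
    refine ee_mono (by fun_prop) (by fun_prop) fun x _ hx => ?_
    rw [← Real.exp_add]
    exact Real.exp_le_exp.2 (by nlinarith)
  · rcases eq_or_ne θ 0 with rfl | h
    · simp
    · refine mul_left_cancel₀ h ?_
      have h1 := ee_mul (-θ)
      have h2 : Real.exp θ * Real.exp (-θ) = 1 := by rw [← Real.exp_add]; simp
      rw [ee_mul]
      linear_combination Real.exp θ * h1 + h2
  · rcases h2.eq_or_lt with rfl | h
    · simpa [ee_zero] using h1
    · refine le_of_mul_le_mul_left ?_ h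
      have h3 := Real.add_one_le_exp (θ * δ)
      have h4 : 1 ≤ Real.exp (θ * (1 - δ)) := Real.one_le_exp (mul_nonneg h2 (by linarith))
      have h5 : Real.exp θ = Real.exp (θ * (1 - δ)) * Real.exp (θ * δ) := by
        rw [← Real.exp_add]
        congr 1
        ring
      rw [ee_mul, h5]
      nlinarith
  · obtain ⟨t, t0, t1, t2⟩ : ∃ t : ℝ, 0 < t ∧ t ≤ 1 ∧ t ≤ η / 2 :=
      ⟨min 1 (η / 2), lt_min one_pos (by linarith), min_le_left _ _, min_le_right _ _⟩
    refine ⟨t, t0, (Real.log_le_sub_one_of_pos (ee_pos t)).trans_lt ?_⟩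
    have h1 := Real.exp_bound' t0.le t1 (n := 3) (by norm_num)
    simp only [sum_range_succ, sum_range_zero, Nat.factorial] at h1
    norm_num at h1
    have h2 : E t ≤ 1 + t / 2 + t ^ 2 := by
      refine le_of_mul_le_mul_left ?_ t0
      rw [ee_mul]
      nlinarith [pow_pos t0 3]
    nlinarith

end Pool.Agent.P.MP_02a1b3_co.As
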